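import Pool.Agent.Lib.MP_1dedaf_gt.Trans

/-!
# The logarithmic combination of `K` and `-r K`
-/

set_option autoImplicit false

namespace Pool.Agent.Lib.MP_1dedaf_gt

open MeasureTheory Set
open scoped Pointwise ENNReal

/-- The secant of `x ^ t` on `[1/q, q]`. -/
theorem exists_sec {q t : ℝ} (hq : 1 < q) (ht0 : 0 < t) (ht1 : t < 1) :
    ∃ α β : ℝ, 0 < α ∧ 0 < β ∧ α ^ 2 + β ^ 2 + α * β * (q + 1 / q) = 1 ∧
      ∀ x : ℝ, 1 / q ≤ x → x ≤ q → α + β * x ≤ x ^ t := by
  have hq0 : 0 < q := by linarith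
  have hqi : 1 / q < 1 := by rw [div_lt_one hq0]; exact hq
  have hδ : 0 < q - 1 / q := by linarith
  have e1 : q ^ (-t) = 1 / q ^ t := by rw [Real.rpow_neg hq0.le, one_div]
  have e2 : q ^ (1 - t) = q / q ^ t := by rw [Real.rpow_sub hq0, Real.rpow_one]
  have e3 : q ^ (t - 1) = q ^ t / q := by rw [Real.rpow_sub hq0, Real.rpow_one]
  have hp : 1 < q ^ t := Real.one_lt_rpow hq ht0
  have hp' : q ^ t < q := by
    calc q ^ t < q ^ (1 : ℝ) := Real.rpow_lt_rpow_of_exponent_lt hq ht1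
      _ = q := Real.rpow_one q
  set p := q ^ t with hpdef
  have hp0 : 0 < p := by linarith
  refine ⟨(q / p - p / q) / (q - 1 / q), (p - 1 / p) / (q - 1 / q), ?_, ?_, ?_, ?_⟩
  · apply div_pos _ hδ
    have h1 : 1 < q / p := by rw [one_lt_div hp0]; exact hp'
    have h2 : p / q < 1 := by rw [div_lt_one hq0]; exact hp'
    linarith
  · apply div_pos _ hδ
    have h1 : 1 / p < 1 := by rw [div_lt_one hp0]; exact hp
    linarith
  · have hd : q - 1 / q ≠ 0 := hδ.ne'
    have hd2 : q ^ 2 - 1 ≠ 0 := by nlinarith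
    field_simp
    ring
  · intro x hx1 hx2
    have hconc := (Real.concaveOn_rpow ht0.le ht1.le).2
      (show 1 / q ∈ Ici (0 : ℝ) from (by positivity : (0 : ℝ) ≤ 1 / q))
      (show q ∈ Ici (0 : ℝ) from hq0.le)
      (show 0 ≤ (q - x) / (q - 1 / q) from div_nonneg (by linarith) hδ.le)
      (show 0 ≤ (x - 1 / q) / (q - 1 / q) from div_nonneg (by linarith) hδ.le)
      (by rw [← add_div, div_eq_one_iff_eq hδ.ne']; ring)
    simp only [smul_eq_mul] at hconc
    have e4 : (q - x) / (q - 1 / q) * (1 / q) + (x - 1 / q) / (q - 1 / q) * q = x := by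
      have hd : q - 1 / q ≠ 0 := hδ.ne'
      have hd2 : q ^ 2 - 1 ≠ 0 := by nlinarith
      field_simp
      ring
    have e5 : (1 / q) ^ t = 1 / p := by
      rw [Real.div_rpow zero_le_one hq0.le, Real.one_rpow]
    rw [e4, e5, ← hpdef] at hconc
    refine le_trans (le_of_eq ?_) hconc
    have hd2 : q ^ 2 - 1 ≠ 0 := by nlinarith
    field_simp
    ring

/-- The logarithmic combination. -/
def LW (t : ℝ) (K C : Set E2) : Set E2 :=
  {x | ∀ u : E2, ‖u‖ = 1 → inner ℝ x u ≤ (hh K u) ^ (1 - t) * (hh C u) ^ t}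

theorem hh_neg_smul (K : Set E2) {r : ℝ} (hr : 0 ≤ r) (u : E2) :
    hh ((-r) • K) u = r * hh K (-u) := by
  unfold hh
  have : (fun y : E2 => (inner ℝ y u : ℝ)) '' ((-r) • K) =
      r • ((fun y : E2 => (inner ℝ y (-u) : ℝ)) '' K) := by
    ext x
    constructor
    · rintro ⟨_, ⟨y, hy, rfl⟩, rfl⟩
      refine ⟨_, ⟨y, hy, rfl⟩, ?_⟩
      simp [inner_smul_left]
    · rintro ⟨_, ⟨y, hy, rfl⟩, rfl⟩
      refine ⟨_, ⟨y, hy, rfl⟩, ?_⟩
      simp [inner_smul_left]
  rw [this, Real.sSup_smul_of_nonneg hr, smul_eq_mul]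

section main

variable {K : Set E2} (hK : IsCompact K) (hc : Convex ℝ K) (hint : (interior K).Nonempty)
  (h0 : ∫ x in K, x = 0) {t r : ℝ} (ht0 : 0 < t) (ht1 : t < 1) (hr : 0 < r)

include hK hint h0 ht0 hr

theorem LW_bdd (ht1 : t < 1) : ∃ B : ℝ, LW t K ((-r) • K) ⊆ Metric.closedBall 0 B := by
  obtain ⟨R, hR⟩ := hK.isBounded.subset_closedBall 0
  have hne : K.Nonempty := hint.mono interior_subset
  have hhle : ∀ u : E2, ‖u‖ = 1 → hh K u ≤ R := by
    intro u hu
    obtain ⟨x, hx, hxe⟩ := exists_hh hK hne u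
    rw [← hxe]
    refine (real_inner_le_norm _ _).trans ?_
    rw [hu, mul_one]
    have := hR hx
    rwa [mem_closedBall_zero_iff] at this
  refine ⟨R ^ (1 - t) * (r * R) ^ t, fun x hx => ?_⟩
  rw [mem_closedBall_zero_iff]
  have hR0 : 0 ≤ R := by
    have hu : ‖(EuclideanSpace.single 0 1 : E2)‖ = 1 := by simp
    exact (hh_pos hK hint h0 hu).le.trans (hhle _ hu)
  by_cases hx0 : x = 0
  · rw [hx0, norm_zero]
    positivity
  have hxn : 0 < ‖x‖ := norm_pos_iff.2 hx0
  have hu : ‖‖x‖⁻¹ • x‖ = 1 := by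
    rw [norm_smul, norm_inv, norm_norm, inv_mul_cancel₀ hxn.ne']
  have h1 := hx _ hu
  have h2 : inner ℝ x (‖x‖⁻¹ • x) = ‖x‖ := by
    rw [inner_smul_right, real_inner_self_eq_norm_sq]
    field_simp
  rw [h2, hh_neg_smul K hr.le] at h1
  refine h1.trans ?_
  have hu' : ‖-(‖x‖⁻¹ • x)‖ = 1 := by rw [norm_neg, hu]
  have p1 := (hh_pos hK hint h0 hu).le
  have p2 := (hh_pos hK hint h0 hu').le
  refine mul_le_mul (Real.rpow_le_rpow p1 (hhle _ hu) (by linarith))
    (Real.rpow_le_rpow (mul_nonneg hr.le p2) (mul_le_mul_of_nonneg_left (hhle _ hu') hr.le) ht0.le)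
    (Real.rpow_nonneg (mul_nonneg hr.le p2) _) (Real.rpow_nonneg hR0 _)

theorem LW_fin (ht1 : t < 1) : volume (LW t K ((-r) • K)) ≠ ⊤ := by
  obtain ⟨B, hB⟩ := LW_bdd hK hint h0 ht0 hr ht1
  exact ((measure_mono hB).trans_lt (isCompact_closedBall _ _).measure_lt_top).ne

omit ht0 in
/-- Inner approximation. -/
theorem LW_sup {α β : ℝ} (hα : 0 < α) (hβ : 0 ≤ β)
    (hab : ∀ u : E2, ‖u‖ = 1 → α + β * (hh K (-u) / hh K u) ≤ (hh K (-u) / hh K u) ^ t) :
    (r ^ t) • (α • K + (-β) • K) ⊆ LW t K ((-r) • K) := by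
  rintro _ ⟨_, ⟨_, ⟨y, hy, rfl⟩, _, ⟨z, hz, rfl⟩, rfl⟩, rfl⟩ u hu
  have hu' : ‖-u‖ = 1 := by rw [norm_neg, hu]
  have p1 := hh_pos hK hint h0 hu
  have p2 := hh_pos hK hint h0 hu'
  have h1 := le_hh hK hy u
  have h2 := le_hh hK hz (-u)
  rw [inner_neg_right] at h2
  have hrt : 0 < r ^ t := Real.rpow_pos_of_pos hr _
  have e1 : inner ℝ ((r ^ t) • (α • y + -β • z)) u =
      r ^ t * (α * inner ℝ y u + β * -inner ℝ z u) := by
    rw [inner_smul_left, inner_add_left, inner_smul_left, inner_smul_left]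
    simp
  have e2 : (hh K u) ^ (1 - t) * (r * hh K (-u)) ^ t =
      r ^ t * (hh K u * (hh K (-u) / hh K u) ^ t) := by
    rw [Real.mul_rpow hr.le p2.le, Real.div_rpow p2.le p1.le, Real.rpow_sub p1, Real.rpow_one]
    ring
  show inner ℝ ((r ^ t) • (α • y + -β • z)) u ≤ _
  rw [hh_neg_smul K hr.le, e1, e2]
  refine mul_le_mul_of_nonneg_left ?_ hrt.le
  have h3 := mul_le_mul_of_nonneg_left (hab u hu) p1.le
  have h4 : hh K u * (α + β * (hh K (-u) / hh K u)) = α * hh K u + β * hh K (-u) := by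
    field_simp
  rw [h4] at h3
  refine le_trans ?_ h3
  exact add_le_add (mul_le_mul_of_nonneg_left h1 hα.le) (mul_le_mul_of_nonneg_left h2 hβ)

end main

/-- Convex sets of dimension one are symmetric. -/
theorem seg_sym {S : Set E2} (hS : IsCompact S) (hc : Convex ℝ S) (hne : S.Nonempty)
    (hd : Module.finrank ℝ (affineSpan ℝ S).direction = 1) : ∃ a : E2, ∀ x ∈ S, a - x ∈ S := by
  obtain ⟨⟨v, hv⟩, hv0, hvs⟩ := finrank_eq_one_iff'.1 hd
  have hv0' : v ≠ 0 := fun h => hv0 (Subtype.ext h)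
  have hvv : 0 < inner ℝ v v := by
    rw [real_inner_self_eq_norm_sq]
    have := norm_pos_iff.2 hv0'
    positivity
  obtain ⟨p, hp, hpm⟩ := hS.exists_isMinOn hne
    (f := fun x => (inner ℝ x v : ℝ)) (by fun_prop)
  obtain ⟨q, hq, hqm⟩ := hS.exists_isMaxOn hne
    (f := fun x => (inner ℝ x v : ℝ)) (by fun_prop)
  have hline : ∀ x ∈ S, ∃ s : ℝ, x = p + s • v := by
    intro x hx
    have hxm : x - p ∈ (affineSpan ℝ S).direction :=
      AffineSubspace.vsub_mem_direction (subset_affineSpan ℝ S hx) (subset_affineSpan ℝ S hp)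
    obtain ⟨c, hc⟩ := hvs ⟨x - p, hxm⟩
    have := congrArg Subtype.val hc
    simp only [SetLike.val_smul] at this
    exact ⟨c, by rw [this]; abel⟩
  refine ⟨p + q, fun x hx => ?_⟩
  obtain ⟨s, hs⟩ := hline x hx
  obtain ⟨s₁, hs₁⟩ := hline q hq
  have i1 : inner ℝ x v = inner ℝ p v + s * inner ℝ v v := by
    rw [hs, inner_add_left, inner_smul_left]; simp
  have i2 : inner ℝ q v = inner ℝ p v + s₁ * inner ℝ v v := by
    rw [hs₁, inner_add_left, inner_smul_left]; simp
  have h1 : 0 ≤ s := by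
    have := hpm hx
    simp only [mem_ofPred_eq] at this
    by_contra hn
    push Not at hn
    nlinarith
  have h2 : s ≤ s₁ := by
    have := hqm hx
    simp only [mem_ofPred_eq] at this
    by_contra hn
    push Not at hn
    nlinarith
  rcases eq_or_lt_of_le (h1.trans h2) with h | h
  · have h3 : s = 0 := by linarith
    rw [hs, h3, zero_smul, add_zero, add_sub_cancel_left]
    exact hq
  · have e : p + q - x = (s / s₁) • p + ((s₁ - s) / s₁) • q := by
      have e1 : (s / s₁) • p + ((s₁ - s) / s₁) • q = (s / s₁ + (s₁ - s) / s₁) • p +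
          ((s₁ - s) / s₁ * s₁) • v := by
        rw [hs₁, smul_add, ← add_assoc, ← add_smul, smul_smul]
      have e2 : s / s₁ + (s₁ - s) / s₁ = 1 := by field_simp; ring
      have e3 : (s₁ - s) / s₁ * s₁ = s₁ - s := by field_simp
      rw [e1, e2, e3, one_smul, hs, hs₁, sub_smul]
      abel
    rw [e]
    exact hc hp hq (div_nonneg h1 h.le) (div_nonneg (by linarith) h.le) (by field_simp; ring)

/-- A set which is symmetric about a point has its centroid there. -/
theorem sym_of_center {K : Set E2} (hK : IsCompact K) (hpos : 0 < volume.real K)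
    (h0 : ∫ x in K, x = 0) {a : E2} (ha : ∀ x ∈ K, a - x ∈ K) : a = 0 := by
  have himg : (fun x => a - x) ⁻¹' K = K := by
    ext x
    constructor
    · intro hx
      have := ha _ hx
      rwa [sub_sub_cancel] at this
    · exact fun hx => ha x hx
  have hi : IntegrableOn (fun x : E2 => x) K := continuousOn_id.integrableOn_compact hK
  have h1 : ∫ x in K, (a - x) = ∫ x in K, x := by
    have hm : MeasurePreserving (fun x : E2 => a - x) volume volume :=
      Measure.measurePreserving_sub_left volume a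
    have hemb : MeasurableEmbedding fun x : E2 => a - x :=
      (Homeomorph.subLeft a).measurableEmbedding
    have := hm.setIntegral_preimage_emb hemb (fun x => x) K
    rw [himg] at this
    exact this
  have h2 : ∫ x in K, (a - x) = volume.real K • a := by
    have hi2 : IntegrableOn (fun _ : E2 => a) K := integrableOn_const hK.measure_lt_top.ne
    rw [integral_sub hi2 hi, h0, sub_zero, setIntegral_const]
  rw [h2, h0] at h1
  exact (smul_eq_zero.1 h1).resolve_left hpos.ne'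

theorem vol_smul (c : ℝ) (S : Set E2) : volume.real (c • S) = c ^ 2 * volume.real S := by
  rw [measureReal_def, Measure.addHaar_smul, ENNReal.toReal_mul, ENNReal.toReal_ofReal
    (abs_nonneg _), measureReal_def]
  simp

theorem rhs_eq {V r t : ℝ} (hV : 0 < V) (hr : 0 < r) :
    V ^ (1 - t) * (r ^ 2 * V) ^ t = (r ^ t) ^ 2 * V := by
  rw [Real.mul_rpow (by positivity) hV.le, Real.rpow_sub hV, Real.rpow_one, ← Real.rpow_natCast,
    ← Real.rpow_natCast, ← Real.rpow_mul hr.le, ← Real.rpow_mul hr.le, mul_comm (t : ℝ)]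
  have : 0 < V ^ t := Real.rpow_pos_of_pos hV t
  field_simp

theorem hh_even {K : Set E2} (hs : ∀ x ∈ K, -x ∈ K) (u : E2) : hh K (-u) = hh K u := by
  unfold hh
  congr 1
  ext x
  constructor
  · rintro ⟨y, hy, rfl⟩
    exact ⟨-y, hs y hy, by simp⟩
  · rintro ⟨y, hy, rfl⟩
    exact ⟨-y, hs y hy, by simp⟩

theorem sym_of_le {K : Set E2} (hK : IsCompact K) (hc : Convex ℝ K) (hne : K.Nonempty)
    (h : ∀ u : E2, ‖u‖ = 1 → hh K (-u) ≤ hh K u) : ∀ x ∈ K, -x ∈ K := by
  intro x hx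
  by_contra hn
  obtain ⟨u, hu, hlt⟩ := sep hK hc hne hn
  have h1 := le_hh hK hx (-u)
  have h2 := h u hu
  rw [inner_neg_right] at h1
  rw [inner_neg_left] at hlt
  linarith

theorem exists_max {K : Set E2} (hK : IsCompact K) (hint : (interior K).Nonempty)
    (h0 : ∫ x in K, x = 0) : ∃ u₀ : E2, ‖u₀‖ = 1 ∧ ∀ u : E2, ‖u‖ = 1 →
      hh K (-u) / hh K u ≤ hh K (-u₀) / hh K u₀ := by
  have hcs : IsCompact (Metric.sphere (0 : E2) 1) := isCompact_sphere _ _
  have hne : (Metric.sphere (0 : E2) 1).Nonempty := ⟨EuclideanSpace.single 0 1, by simp⟩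
  have hcont : ContinuousOn (fun u => hh K (-u) / hh K u) (Metric.sphere (0 : E2) 1) := by
    refine ContinuousOn.div ((continuous_hh hK).comp continuous_neg).continuousOn
      (continuous_hh hK).continuousOn fun u hu => ?_
    rw [mem_sphere_zero_iff_norm] at hu
    exact (hh_pos hK hint h0 hu).ne'
  obtain ⟨u₀, hu₀, hmax⟩ := hcs.exists_isMaxOn hne hcont
  rw [mem_sphere_zero_iff_norm] at hu₀
  exact ⟨u₀, hu₀, fun u hu => hmax (by rw [mem_sphere_zero_iff_norm]; exact hu)⟩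

/-- The symmetric case. -/
theorem LW_sym {K : Set E2} (hK : IsCompact K) (hc : Convex ℝ K) (hint : (interior K).Nonempty)
    (h0 : ∫ x in K, x = 0) {t r : ℝ} (hr : 0 < r) (hs : ∀ x ∈ K, -x ∈ K) :
    LW t K ((-r) • K) = (r ^ t) • K := by
  have hne : K.Nonempty := hint.mono interior_subset
  have hrt : 0 < r ^ t := Real.rpow_pos_of_pos hr _
  have hval : ∀ u : E2, ‖u‖ = 1 → (hh K u) ^ (1 - t) * (hh ((-r) • K) u) ^ t = r ^ t * hh K u := by
    intro u hu
    have p1 := hh_pos hK hint h0 hu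
    rw [hh_neg_smul K hr.le, hh_even hs, Real.mul_rpow hr.le p1.le, Real.rpow_sub p1,
      Real.rpow_one]
    have : 0 < hh K u ^ t := Real.rpow_pos_of_pos p1 t
    field_simp
  ext x
  constructor
  · intro hx
    rw [mem_smul_set_iff_inv_smul_mem₀ hrt.ne']
    by_contra hn
    obtain ⟨u, hu, hlt⟩ := sep hK hc hne hn
    have h1 := hx u hu
    rw [hval u hu] at h1
    rw [inner_smul_left] at hlt
    have h2 : r ^ t * hh K u < r ^ t * ((r ^ t)⁻¹ * inner ℝ x u) :=
      mul_lt_mul_of_pos_left hlt hrt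
    rw [← mul_assoc, mul_inv_cancel₀ hrt.ne', one_mul] at h2
    linarith
  · rintro ⟨y, hy, rfl⟩ u hu
    rw [hval u hu]
    show inner ℝ ((r ^ t) • y) u ≤ _
    rw [inner_smul_left]
    exact mul_le_mul_of_nonneg_left (le_hh hK hy u) hrt.le

/-- The asymmetric case. -/
theorem LW_lt {K : Set E2} (hK : IsCompact K) (hc : Convex ℝ K) (hint : (interior K).Nonempty)
    (h0 : ∫ x in K, x = 0) {t r : ℝ} (ht0 : 0 < t) (ht1 : t < 1) (hr : 0 < r)
    (hs : ¬ ∀ x ∈ K, -x ∈ K) :
    (r ^ t) ^ 2 * volume.real K < volume.real (LW t K ((-r) • K)) := by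
  have hne : K.Nonempty := hint.mono interior_subset
  have hrt : 0 < r ^ t := Real.rpow_pos_of_pos hr _
  obtain ⟨u₀, hu₀, hmax⟩ := exists_max hK hint h0
  have hu₀' : ‖-u₀‖ = 1 := by rw [norm_neg, hu₀]
  have p0 := hh_pos hK hint h0 hu₀
  have p0' := hh_pos hK hint h0 hu₀'
  have hq : 1 < hh K (-u₀) / hh K u₀ := by
    by_contra hn
    push Not at hn
    refine hs (sym_of_le hK hc hne fun u hu => ?_)
    have := (hmax u hu).trans hn
    rwa [div_le_one (hh_pos hK hint h0 hu)] at this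
  obtain ⟨α, β, hα, hβ, hαβ, hsec⟩ := exists_sec hq ht0 ht1
  have hlt : hh K u₀ < hh K (-u₀) := by rwa [one_lt_div p0] at hq
  have h1 := (plane_main hK hc hint h0 hu₀' (by rw [neg_neg]; exact hlt.le) hα hβ).2
    (by rw [neg_neg]; exact hlt)
  rw [neg_neg] at h1
  have h2 : α ^ 2 + β ^ 2 + α * β * (hh K (-u₀) / hh K u₀ + hh K u₀ / hh K (-u₀)) = 1 := by
    rw [one_div_div] at hαβ
    exact hαβ
  rw [h2, one_mul] at h1
  have hsub := LW_sup hK hint h0 (t := t) hr hα hβ.le fun u hu => by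
    have hu' : ‖-u‖ = 1 := by rw [norm_neg, hu]
    have p1 := hh_pos hK hint h0 hu
    have p1' := hh_pos hK hint h0 hu'
    refine hsec _ ?_ (hmax u hu)
    have h3 := hmax (-u) hu'
    rw [neg_neg] at h3
    rw [one_div_div, div_le_div_iff₀ p0' p1]
    rw [div_le_div_iff₀ p1' p0] at h3
    linarith
  calc (r ^ t) ^ 2 * volume.real K < (r ^ t) ^ 2 * volume.real (α • K + (-β) • K) :=
        mul_lt_mul_of_pos_left h1 (by positivity)
    _ = volume.real ((r ^ t) • (α • K + (-β) • K)) := (vol_smul _ _).symm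
    _ ≤ volume.real (LW t K ((-r) • K)) :=
        measureReal_mono hsub (LW_fin hK hint h0 ht0 hr ht1)

/-- A decomposition as in the equality cases forces symmetry. -/
theorem dec_sym {K C : Set E2} (hK : IsCompact K) (hint : (interior K).Nonempty)
    (h0 : ∫ x in K, x = 0) {r : ℝ} (hr : 0 < r) (hC : C = (-r) • K)
    {m : ℕ} {Ks Cs : Fin m → Set E2}
    (h1 : ∀ i, Convex ℝ (Ks i) ∧ IsCompact (Ks i) ∧ (Ks i).Nonempty ∧
      1 ≤ Module.finrank ℝ (affineSpan ℝ (Ks i)).direction)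
    (h2 : (∑ i, Module.finrank ℝ (affineSpan ℝ (Ks i)).direction) = 2)
    (h3 : K = ∑ i, Ks i) (h4 : C = ∑ i, Cs i)
    (h5 : ∀ i, ∃ r : ℝ, 0 < r ∧ Cs i = r • Ks i) : ∀ x ∈ K, -x ∈ K := by
  have hVpos : 0 < volume.real K := ENNReal.toReal_pos
    ((isOpen_interior.measure_pos volume hint).trans_le (measure_mono interior_subset)).ne'
    hK.measure_lt_top.ne
  have hm : m ≤ 2 := by
    calc m = ∑ _i : Fin m, 1 := by simp
      _ ≤ ∑ i, Module.finrank ℝ (affineSpan ℝ (Ks i)).direction :=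
          Finset.sum_le_sum fun i _ => (h1 i).2.2.2
      _ = 2 := h2
  interval_cases m
  · simp at h2
  · rw [Fin.sum_univ_one] at h3 h4
    obtain ⟨c, hc0, hc⟩ := h5 0
    rw [hc, ← h3, hC] at h4
    have hv := congrArg volume.real h4
    rw [vol_smul, vol_smul] at hv
    have hcr : c = r := by
      have := mul_right_cancel₀ hVpos.ne' hv
      nlinarith
    rw [hcr] at h4
    intro x hx
    have hx1 : r • x ∈ (-r) • K := by rw [h4]; exact ⟨x, hx, rfl⟩
    obtain ⟨y, hy, hxy⟩ := hx1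
    have hxy' : (-r) • y = r • x := hxy
    have : -x = y := by
      have h6 : r • (x + y) = 0 := by rw [smul_add, ← hxy']; simp
      rcases smul_eq_zero.1 h6 with h7 | h7
      · exact absurd h7 hr.ne'
      · exact neg_eq_of_add_eq_zero_right h7
    rw [this]
    exact hy
  · rw [Fin.sum_univ_two] at h2 h3
    have d0 := (h1 0).2.2.2
    have d1 := (h1 1).2.2.2
    obtain ⟨a, ha⟩ := seg_sym (h1 0).2.1 (h1 0).1 (h1 0).2.2.1 (by omega)
    obtain ⟨a', ha'⟩ := seg_sym (h1 1).2.1 (h1 1).1 (h1 1).2.2.1 (by omega)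
    have hsym : ∀ x ∈ K, (a + a') - x ∈ K := by
      intro x hx
      rw [h3] at hx ⊢
      obtain ⟨y, hy, z, hz, rfl⟩ := hx
      exact ⟨a - y, ha y hy, a' - z, ha' z hz, by
        show (a - y) + (a' - z) = (a + a') - (y + z)
        abel⟩
    have h6 := sym_of_center hK hVpos h0 hsym
    intro x hx
    have := hsym x hx
    rwa [h6, zero_sub] at this

/-- In the symmetric case there is a decomposition. -/
theorem sym_dec {K C : Set E2} (hK : IsCompact K) (hc : Convex ℝ K) (hint : (interior K).Nonempty)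
    {r : ℝ} (hr : 0 < r) (hC : C = (-r) • K) (hs : ∀ x ∈ K, -x ∈ K) :
    ∃ m : ℕ, ∃ Ks Cs : Fin m → Set E2,
      (∀ i, Convex ℝ (Ks i) ∧ IsCompact (Ks i) ∧ (Ks i).Nonempty ∧
        1 ≤ Module.finrank ℝ (affineSpan ℝ (Ks i)).direction) ∧
      (∑ i, Module.finrank ℝ (affineSpan ℝ (Ks i)).direction) = 2 ∧
      K = ∑ i, Ks i ∧ C = ∑ i, Cs i ∧
      (∀ i, ∃ r : ℝ, 0 < r ∧ Cs i = r • Ks i) := by
  have hne : K.Nonempty := hint.mono interior_subset
  have hfin : Module.finrank ℝ (affineSpan ℝ K).direction = 2 := by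
    rw [hc.interior_nonempty_iff_affineSpan_eq_top.1 hint, AffineSubspace.direction_top,
      finrank_top, finrank_euclideanSpace, Fintype.card_fin]
  refine ⟨1, fun _ => K, fun _ => C, fun _ => ⟨hc, hK, hne, by rw [hfin]; norm_num⟩, by simp [hfin],
    by simp, by simp, fun _ => ⟨r, hr, ?_⟩⟩
  rw [hC]
  ext x
  constructor
  · rintro ⟨y, hy, rfl⟩
    exact ⟨-y, hs y hy, by simp⟩
  · rintro ⟨y, hy, rfl⟩
    exact ⟨-y, hs y hy, by simp⟩

end Pool.Agent.Lib.MP_1dedaf_gt
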