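import Mathlib

/-!
# One-dimensional inequality for concave functions
-/

set_option autoImplicit false

namespace Pool.Agent.Lib.MP_1dedaf_gt

open MeasureTheory Set

/-- Monotonicity of `f s / (s + 1)` for concave `f ≥ 0`. -/
theorem left_mono {f : ℝ → ℝ} (hf : ConcaveOn ℝ (Icc (-1) 1) f) (h0 : 0 ≤ f (-1)) {x y : ℝ}
    (hx : -1 ≤ x) (hxy : x ≤ y) (hy : y ≤ 1) : f y * (x + 1) ≤ f x * (y + 1) := by
  rcases eq_or_lt_of_le (hx.trans hxy) with h | h
  · have : x = -1 := by linarith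
    subst this
    rw [← h]
  · have hy1 : 0 < y + 1 := by linarith
    have h1 := hf.2 (show (-1 : ℝ) ∈ Icc (-1 : ℝ) 1 by norm_num)
      (show y ∈ Icc (-1 : ℝ) 1 from ⟨h.le, hy⟩)
      (show 0 ≤ (y - x) / (y + 1) by apply div_nonneg <;> linarith)
      (show 0 ≤ (x + 1) / (y + 1) by apply div_nonneg <;> linarith) (by field_simp; ring)
    have h2 : ((y - x) / (y + 1)) • (-1 : ℝ) + ((x + 1) / (y + 1)) • y = x := by
      simp only [smul_eq_mul]
      field_simp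
      ring
    rw [h2] at h1
    simp only [smul_eq_mul] at h1
    have h3 : 0 ≤ (y - x) / (y + 1) * f (-1) :=
      mul_nonneg (by apply div_nonneg <;> linarith) h0
    have h4 : (x + 1) / (y + 1) * f y ≤ f x := by linarith
    rw [div_mul_eq_mul_div, div_le_iff₀ hy1] at h4
    linarith

/-- Monotonicity of `f s / (1 - s)` for concave `f ≥ 0`. -/
theorem right_mono {f : ℝ → ℝ} (hf : ConcaveOn ℝ (Icc (-1) 1) f) (h0 : 0 ≤ f 1) {x y : ℝ}
    (hx : -1 ≤ x) (hxy : x ≤ y) (hy : y ≤ 1) : f x * (1 - y) ≤ f y * (1 - x) := by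
  rcases eq_or_lt_of_le (hxy.trans hy) with h | h
  · have : y = 1 := by linarith
    subst this
    rw [h]
  · have hy1 : 0 < 1 - x := by linarith
    have h1 := hf.2 (show (1 : ℝ) ∈ Icc (-1 : ℝ) 1 by norm_num)
      (show x ∈ Icc (-1 : ℝ) 1 from ⟨hx, h.le⟩)
      (show 0 ≤ (y - x) / (1 - x) by apply div_nonneg <;> linarith)
      (show 0 ≤ (1 - y) / (1 - x) by apply div_nonneg <;> linarith) (by field_simp; ring)
    have h2 : ((y - x) / (1 - x)) • (1 : ℝ) + ((1 - y) / (1 - x)) • x = y := by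
      simp only [smul_eq_mul]
      field_simp
      ring
    rw [h2] at h1
    simp only [smul_eq_mul] at h1
    have h3 : 0 ≤ (y - x) / (1 - x) * f 1 :=
      mul_nonneg (by apply div_nonneg <;> linarith) h0
    have h4 : (1 - y) / (1 - x) * f x ≤ f y := by linarith
    rw [div_mul_eq_mul_div, div_le_iff₀ hy1] at h4
    linarith

/-- The centroid of a concave function on `[-1, 1]` is at least `-1/3`. -/
theorem centroid_ge {f : ℝ → ℝ} (hf : ConcaveOn ℝ (Icc (-1) 1) f)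
    (h0 : ∀ s ∈ Icc (-1 : ℝ) 1, 0 ≤ f s) (hi : IntegrableOn f (Icc (-1) 1)) :
    0 ≤ ∫ s in Icc (-1 : ℝ) 1, (s + 1 / 3) * f s := by
  set b : ℝ := f (-1 / 3) / (4 / 3) with hb
  have hcont : ∀ g : ℝ → ℝ, Continuous g → IntegrableOn (fun s => g s * f s) (Icc (-1) 1) := by
    intro g hg
    exact hi.continuousOn_mul hg.continuousOn isCompact_Icc
  have h1 : ∫ s in Icc (-1 : ℝ) 1, (s + 1 / 3) * (b * (1 - s)) = 0 := by
    rw [integral_Icc_eq_integral_Ioc, ← intervalIntegral.integral_of_le (by norm_num)]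
    have : ∀ s ∈ uIcc (-1 : ℝ) 1, HasDerivAt (fun s : ℝ => b * (s ^ 2 / 3 + s / 3 - s ^ 3 / 3))
        ((s + 1 / 3) * (b * (1 - s))) s := by
      intro s _
      have h : HasDerivAt (fun s : ℝ => b * (s ^ 2 / 3 + s / 3 - s ^ 3 / 3)) _ s :=
        (((hasDerivAt_pow 2 s).div_const 3).add ((hasDerivAt_id s).div_const 3)).sub
          ((hasDerivAt_pow 3 s).div_const 3) |>.const_mul b
      refine h.congr_deriv ?_
      simp
      ring
    rw [intervalIntegral.integral_eq_sub_of_hasDerivAt this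
      (Continuous.intervalIntegrable (by fun_prop) _ _)]
    norm_num
  rw [← h1]
  refine setIntegral_mono_on ?_ (hcont _ (by fun_prop)) measurableSet_Icc ?_
  · exact (Continuous.continuousOn (by fun_prop)).integrableOn_Icc
  · intro s hs
    have h13 : f (-1 / 3) = b * (4 / 3) := by rw [hb]; ring
    rcases le_total s (-1 / 3) with h | h
    · have := right_mono hf (h0 1 (by norm_num)) hs.1 h (by norm_num)
      rw [h13] at this
      have h2 : f s ≤ b * (1 - s) := by nlinarith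
      nlinarith
    · have := right_mono hf (h0 1 (by norm_num)) (by norm_num) h hs.2
      rw [h13] at this
      have h2 : b * (1 - s) ≤ f s := by nlinarith
      nlinarith

/-- Integration by parts against a tent. -/
theorem tent_int {Ψ Ψ₁ Ψ₂ : ℝ → ℝ} (h1 : ∀ s, HasDerivAt Ψ (Ψ₁ s) s)
    (h2 : ∀ s, HasDerivAt Ψ₁ (Ψ₂ s) s) (hc : Continuous Ψ₂) (hm1 : Ψ (-1) = 0) (hp1 : Ψ 1 = 0)
    (hneg : ∀ s ∈ Icc (-1 : ℝ) 1, Ψ s ≤ 0) {a a' : ℝ} (ha : 0 ≤ a) (ha' : 0 ≤ a') :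
    0 ≤ ∫ s in Icc (-1 : ℝ) 1, min (a * (s + 1)) (a' * (1 - s)) * Ψ₂ s := by
  rcases eq_or_lt_of_le (add_nonneg ha ha') with h | h
  · have e1 : a = 0 := by linarith
    have e2 : a' = 0 := by linarith
    subst e1 e2
    simp
  set p : ℝ := (a' - a) / (a + a') with hp
  have hpe : (a + a') * p = a' - a := by rw [hp]; field_simp
  have hp_ge : -1 ≤ p := by rw [hp, le_div_iff₀ h]; linarith
  have hp_le : p ≤ 1 := by rw [hp, div_le_iff₀ h]; linarith
  have hcm : Continuous fun s : ℝ => min (a * (s + 1)) (a' * (1 - s)) * Ψ₂ s := by fun_prop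
  rw [integral_Icc_eq_integral_Ioc, ← intervalIntegral.integral_of_le (by norm_num),
    ← intervalIntegral.integral_add_adjacent_intervals (b := p)
      (hcm.intervalIntegrable _ _) (hcm.intervalIntegrable _ _)]
  have e1 : ∫ s in (-1 : ℝ)..p, min (a * (s + 1)) (a' * (1 - s)) * Ψ₂ s =
      a * ((p + 1) * Ψ₁ p - Ψ p) := by
    have : ∫ s in (-1 : ℝ)..p, min (a * (s + 1)) (a' * (1 - s)) * Ψ₂ s =
        ∫ s in (-1 : ℝ)..p, (a * (s + 1)) * Ψ₂ s := by
      refine intervalIntegral.integral_congr fun s hs => ?_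
      rw [uIcc_of_le hp_ge] at hs
      have : a * (s + 1) ≤ a' * (1 - s) := by nlinarith [hs.2]
      simp only [min_eq_left this]
    rw [this, intervalIntegral.integral_eq_sub_of_hasDerivAt
      (f := fun s => a * ((s + 1) * Ψ₁ s - Ψ s)) (fun s _ => ?_)
      (Continuous.intervalIntegrable (by fun_prop) _ _)]
    · rw [hm1]; ring
    · have h3 : HasDerivAt (fun s => a * ((s + 1) * Ψ₁ s - Ψ s)) _ s :=
        ((((hasDerivAt_id s).add_const 1).mul (h2 s)).sub (h1 s)).const_mul a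
      refine h3.congr_deriv ?_
      simp only [id]
      ring
  have e2 : ∫ s in p..(1 : ℝ), min (a * (s + 1)) (a' * (1 - s)) * Ψ₂ s =
      -(a' * ((1 - p) * Ψ₁ p + Ψ p)) := by
    have : ∫ s in p..(1 : ℝ), min (a * (s + 1)) (a' * (1 - s)) * Ψ₂ s =
        ∫ s in p..(1 : ℝ), (a' * (1 - s)) * Ψ₂ s := by
      refine intervalIntegral.integral_congr fun s hs => ?_
      rw [uIcc_of_le hp_le] at hs
      have : a' * (1 - s) ≤ a * (s + 1) := by nlinarith [hs.1]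
      simp only [min_eq_right this]
    rw [this, intervalIntegral.integral_eq_sub_of_hasDerivAt
      (f := fun s => a' * ((1 - s) * Ψ₁ s + Ψ s)) (fun s _ => ?_)
      (Continuous.intervalIntegrable (by fun_prop) _ _)]
    · rw [hp1]; ring
    · have h3 : HasDerivAt (fun s => a' * ((1 - s) * Ψ₁ s + Ψ s)) _ s :=
        ((((hasDerivAt_id s).const_sub 1).mul (h2 s)).add (h1 s)).const_mul a'
      refine h3.congr_deriv ?_
      simp only [id]
      ring
  rw [e1, e2]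
  have h5 : a * ((p + 1) * Ψ₁ p - Ψ p) + -(a' * ((1 - p) * Ψ₁ p + Ψ p)) =
      -((a + a') * Ψ p) := by
    linear_combination (Ψ₁ p) * hpe
  rw [h5]
  have := hneg p ⟨hp_ge, hp_le⟩
  nlinarith

/-- Comparison of a concave function with a tent. -/
theorem int_convex_nonneg {f : ℝ → ℝ} (hf : ConcaveOn ℝ (Icc (-1) 1) f)
    (h0 : ∀ s ∈ Icc (-1 : ℝ) 1, 0 ≤ f s) (hi : IntegrableOn f (Icc (-1) 1))
    {Ψ Ψ₁ Ψ₂ φ : ℝ → ℝ} (h1 : ∀ s, HasDerivAt Ψ (Ψ₁ s) s)
    (h2 : ∀ s, HasDerivAt Ψ₁ (Ψ₂ s) s) (hc : Continuous Ψ₂) (hm1 : Ψ (-1) = 0) (hp1 : Ψ 1 = 0)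
    (hneg : ∀ s ∈ Icc (-1 : ℝ) 1, Ψ s ≤ 0) (hφ : ContinuousOn φ (Icc (-1) 1))
    (hφc : ConvexOn ℝ (Icc (-1) 1) φ) (hφm : 0 < φ (-1)) (hφp : 0 < φ 1)
    (hle : ∀ s ∈ Icc (-1 : ℝ) 1, Ψ₂ s ≤ φ s) :
    0 ≤ ∫ s in Icc (-1 : ℝ) 1, φ s * f s := by
  set S : Set ℝ := Icc (-1) 1 ∩ φ ⁻¹' Iic 0 with hS
  by_cases hne : S.Nonempty
  swap
  · refine setIntegral_nonneg measurableSet_Icc fun s hs => mul_nonneg ?_ (h0 s hs)
    by_contra hlt
    exact hne ⟨s, hs, (not_le.1 hlt).le⟩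
  have hcomp : IsCompact S :=
    isCompact_Icc.of_isClosed_subset (hφ.preimage_isClosed_of_isClosed isClosed_Icc isClosed_Iic)
      inter_subset_left
  obtain ⟨hs1, hs1'⟩ := hcomp.sInf_mem hne
  obtain ⟨hs2, hs2'⟩ := hcomp.sSup_mem hne
  have hlow : ∀ s ∈ S, sInf S ≤ s := fun s hs => csInf_le hcomp.bddBelow hs
  have hupp : ∀ s ∈ S, s ≤ sSup S := fun s hs => le_csSup hcomp.bddAbove hs
  set s₁ := sInf S
  set s₂ := sSup S
  have h12 : s₁ ≤ s₂ := by
    obtain ⟨x, hx⟩ := hne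
    exact (hlow x hx).trans (hupp x hx)
  have hs1m : -1 < s₁ := by
    rcases eq_or_lt_of_le hs1.1 with h | h
    · rw [← h] at hs1'
      exact absurd hs1' (not_le.2 hφm)
    · exact h
  have hs2m : s₂ < 1 := by
    rcases eq_or_lt_of_le hs2.2 with h | h
    · rw [h] at hs2'
      exact absurd hs2' (not_le.2 hφp)
    · exact h
  set a := f s₁ / (s₁ + 1) with ha
  set a' := f s₂ / (1 - s₂) with ha'
  have hae : f s₁ = a * (s₁ + 1) := by
    rw [ha]; have : s₁ + 1 ≠ 0 := by linarith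
    field_simp
  have hae' : f s₂ = a' * (1 - s₂) := by
    rw [ha']; have : 1 - s₂ ≠ 0 := by linarith
    field_simp
  have ha0 : 0 ≤ a := div_nonneg (h0 _ hs1) (by linarith)
  have ha0' : 0 ≤ a' := div_nonneg (h0 _ hs2) (by linarith)
  have hcm : Continuous fun s : ℝ => min (a * (s + 1)) (a' * (1 - s)) := by fun_prop
  refine (tent_int h1 h2 hc hm1 hp1 hneg ha0 ha0').trans ?_
  have hint1 : IntegrableOn (fun s : ℝ => min (a * (s + 1)) (a' * (1 - s)) * Ψ₂ s)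
      (Icc (-1) 1) := (hcm.mul hc).continuousOn.integrableOn_Icc
  have hint3 : IntegrableOn (fun s => φ s * f s) (Icc (-1) 1) :=
    hi.continuousOn_mul hφ isCompact_Icc
  refine setIntegral_mono_on hint1 hint3 measurableSet_Icc fun s hs => ?_
  have hm0 : 0 ≤ min (a * (s + 1)) (a' * (1 - s)) :=
    le_min (mul_nonneg ha0 (by linarith [hs.1])) (mul_nonneg ha0' (by linarith [hs.2]))
  have hstep : min (a * (s + 1)) (a' * (1 - s)) * Ψ₂ s ≤
      min (a * (s + 1)) (a' * (1 - s)) * φ s := mul_le_mul_of_nonneg_left (hle s hs) hm0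
  refine hstep.trans ?_
  rw [mul_comm]
  by_cases hsS : s ∈ S
  · have hφs : φ s ≤ 0 := hsS.2
    refine mul_le_mul_of_nonpos_left ?_ hφs
    refine le_min ?_ ?_
    · have := left_mono hf (h0 (-1) (by norm_num)) hs1.1 (hlow s hsS) hs.2
      rw [hae] at this
      have h3 : 0 < s₁ + 1 := by linarith
      nlinarith
    · have := right_mono hf (h0 1 (by norm_num)) hs.1 (hupp s hsS) hs2.2
      rw [hae'] at this
      have h3 : 0 < 1 - s₂ := by linarith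
      nlinarith
  · have hφs : 0 < φ s := by
      by_contra h
      exact hsS ⟨hs, not_lt.1 h⟩
    refine mul_le_mul_of_nonneg_left ?_ hφs.le
    rcases lt_or_ge s s₁ with h | h
    · refine (min_le_left _ _).trans ?_
      have := left_mono hf (h0 (-1) (by norm_num)) hs.1 h.le hs1.2
      rw [hae] at this
      have h3 : 0 < s₁ + 1 := by linarith
      nlinarith
    rcases lt_or_ge s₂ s with h' | h'
    · refine (min_le_right _ _).trans ?_
      have := right_mono hf (h0 1 (by norm_num)) hs2.1 h'.le hs.2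
      rw [hae'] at this
      have h3 : 0 < 1 - s₂ := by linarith
      nlinarith
    · exfalso
      have hconv : Convex ℝ {x ∈ Icc (-1 : ℝ) 1 | φ x ≤ 0} := hφc.convex_le 0
      have h5 := hconv.ordConnected.out (show s₁ ∈ _ from ⟨hs1, hs1'⟩)
        (show s₂ ∈ _ from ⟨hs2, hs2'⟩) (⟨h, h'⟩ : s ∈ Icc s₁ s₂)
      exact absurd h5.2 (not_le.2 hφs)

/-- The constant. -/
noncomputable def cc (ε b : ℝ) : ℝ :=
  1 + 2 * b * ε + (1 + 9 * ε ^ 2) * (b ^ 2 / 2 + 6 / 5 * ε * b ^ 3)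

/-- The slope. -/
noncomputable def kk (ε b : ℝ) : ℝ :=
  -2 * b - 6 * (6 * ε * (b ^ 2 / 4 + 6 / 5 * ε * b ^ 3) + 9 * ε ^ 2 * (-b ^ 3 / 5) + b ^ 3 / 5)

theorem omega_ge {b s : ℝ} (hb : 0 ≤ b) (hb' : b ≤ 1 / 2) (hs : s ∈ Icc (-1 : ℝ) 1) :
    1 - 2 * b * s + 3 * b ^ 2 * s ^ 2 - 4 * b ^ 3 * s ^ 3 ≤ 1 / (1 + b * s) ^ 2 := by
  have h1 : -(1 / 2) ≤ b * s := by nlinarith [hs.1, hs.2]
  rw [le_div_iff₀ (by nlinarith)]
  have h2 : 0 ≤ (b * s) ^ 4 * (5 + 4 * (b * s)) := by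
    apply mul_nonneg (by positivity)
    linarith
  nlinarith

theorem omega_gt {b s : ℝ} (hb : 0 < b) (hb' : b ≤ 1 / 2) (hs : s ∈ Icc (-1 : ℝ) 1) (hs0 : s ≠ 0) :
    1 - 2 * b * s + 3 * b ^ 2 * s ^ 2 - 4 * b ^ 3 * s ^ 3 < 1 / (1 + b * s) ^ 2 := by
  have h1 : -(1 / 2) ≤ b * s := by nlinarith [hs.1, hs.2]
  rw [lt_div_iff₀ (by nlinarith)]
  have h3 : b * s ≠ 0 := mul_ne_zero hb.ne' hs0
  have h2 : 0 < (b * s) ^ 4 * (5 + 4 * (b * s)) := by
    apply mul_pos (by positivity)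
    linarith
  nlinarith

theorem convexOn_omega {b : ℝ} (hb : 0 ≤ b) (hb' : b ≤ 1 / 2) :
    ConvexOn ℝ (Icc (-1) 1) fun s => 1 / (1 + b * s) ^ 2 := by
  have h := (convexOn_zpow (𝕜 := ℝ) (-2)).comp_affineMap
    (AffineMap.lineMap (1 : ℝ) (1 + b) : ℝ →ᵃ[ℝ] ℝ)
  refine (h.subset ?_ (convex_Icc _ _)).congr ?_
  · intro s hs
    simp only [mem_preimage, mem_Ioi, AffineMap.lineMap_apply_module', smul_eq_mul]
    nlinarith [hs.1, hs.2]
  · intro s hs
    simp only [Function.comp, AffineMap.lineMap_apply_module', smul_eq_mul]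
    rw [zpow_neg, one_div]
    congr 1
    have : (1 + b * s) ^ 2 = (1 + b * s) ^ (2 : ℤ) := by norm_cast
    rw [this]
    congr 1
    ring

/-- **The one-dimensional inequality.** -/
theorem int_omega {f : ℝ → ℝ} (hf : ConcaveOn ℝ (Icc (-1) 1) f)
    (h0 : ∀ s ∈ Icc (-1 : ℝ) 1, 0 ≤ f s) (hi : IntegrableOn f (Icc (-1) 1))
    {ε b : ℝ} (hε : 0 < ε) (hε' : ε ≤ 1 / 3) (hb : 0 < b) (hb' : b ≤ 1 / 2)
    (hm : ∫ s in Icc (-1 : ℝ) 1, (s + ε) * f s = 0) :
    cc ε b * ∫ s in Icc (-1 : ℝ) 1, f s ≤ ∫ s in Icc (-1 : ℝ) 1, 1 / (1 + b * s) ^ 2 * f s := by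
  set A : ℝ := b ^ 2 / 4 + 6 / 5 * ε * b ^ 3 with hA
  set B : ℝ := -b ^ 3 / 5 with hB
  have hcω : ContinuousOn (fun s : ℝ => 1 / (1 + b * s) ^ 2) (Icc (-1) 1) := by
    refine ContinuousOn.div continuousOn_const (by fun_prop) fun s hs => ?_
    have : 0 < 1 + b * s := by nlinarith [hs.1, hs.2]
    positivity
  have key : 0 ≤ ∫ s in Icc (-1 : ℝ) 1,
      (1 / (1 + b * s) ^ 2 - cc ε b - kk ε b * (s + ε)) * f s := by
    have hpoly : ∀ s : ℝ, B * s ^ 5 + (A + 6 * ε * B) * s ^ 4 +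
        (6 * ε * A + 9 * ε ^ 2 * B - B) * s ^ 3 + (9 * ε ^ 2 * A - A - 6 * ε * B) * s ^ 2 -
        (6 * ε * A + 9 * ε ^ 2 * B) * s - 9 * ε ^ 2 * A =
        -((1 - s ^ 2) * (s + 3 * ε) ^ 2 * (A + B * s)) := fun s => by ring
    have hA0 : 0 < A := by rw [hA]; positivity
    have hAB : 0 < A + B := by
      have : A + B = b ^ 2 * (1 / 4 + 6 / 5 * ε * b - b / 5) := by rw [hA, hB]; ring
      rw [this]
      have h3 : 0 < ε * b := mul_pos hε hb
      exact mul_pos (by positivity) (by nlinarith)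
    have hB0 : B < 0 := by rw [hB]; have := pow_pos hb 3; linarith
    have hΨ₂ : ∀ s : ℝ, 20 * B * s ^ 3 + 12 * (A + 6 * ε * B) * s ^ 2 +
        6 * (6 * ε * A + 9 * ε ^ 2 * B - B) * s +
        2 * (9 * ε ^ 2 * A - A - 6 * ε * B) =
        (1 - 2 * b * s + 3 * b ^ 2 * s ^ 2 - 4 * b ^ 3 * s ^ 3) - cc ε b - kk ε b * (s + ε) := by
      intro s
      rw [hA, hB, cc, kk]
      ring
    have hend : ∀ s : ℝ, s ^ 2 = 1 → 0 ≤ 20 * B * s ^ 3 + 12 * (A + 6 * ε * B) * s ^ 2 +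
        6 * (6 * ε * A + 9 * ε ^ 2 * B - B) * s +
        2 * (9 * ε ^ 2 * A - A - 6 * ε * B) := by
      intro s hs
      have hs' : s = 1 ∨ s = -1 := by
        have : (s - 1) * (s + 1) = 0 := by linarith
        rcases mul_eq_zero.1 this with h | h
        · left; linarith
        · right; linarith
      rcases hs' with rfl | rfl
      · have h4 : 0 ≤ 2 * (A + B) + B * (1 + 3 * ε) := by
          have : 2 * (A + B) + B * (1 + 3 * ε) =
            b ^ 2 * (1 / 2 - 3 / 5 * b + 9 / 5 * (ε * b)) := by rw [hA, hB]; ring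
          rw [this]
          have h3 : 0 < ε * b := mul_pos hε hb
          exact mul_nonneg (by positivity) (by nlinarith)
        have h5 : 20 * B * (1 : ℝ) ^ 3 + 12 * (A + 6 * ε * B) * 1 ^ 2 +
          6 * (6 * ε * A + 9 * ε ^ 2 * B - B) * 1 +
          2 * (9 * ε ^ 2 * A - A - 6 * ε * B) =
          2 * (1 + 3 * ε) ^ 2 * (A + B) +
          4 * ((1 + 3 * ε) * (2 * (A + B) + B * (1 + 3 * ε))) := by ring
        rw [h5]
        have h6 : 0 ≤ 1 + 3 * ε := by linarith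
        have := hAB.le
        positivity
      · have h5 : 20 * B * (-1 : ℝ) ^ 3 + 12 * (A + 6 * ε * B) * (-1) ^ 2 +
          6 * (6 * ε * A + 9 * ε ^ 2 * B - B) * (-1) +
          2 * (9 * ε ^ 2 * A - A - 6 * ε * B) =
          2 * (1 - 3 * ε) ^ 2 * (A - B) +
          4 * (2 * (1 - 3 * ε) * (A - B) + (-B) * (1 - 3 * ε) ^ 2) := by ring
        rw [h5]
        have h6 : 0 ≤ 1 - 3 * ε := by linarith
        have h7 : 0 ≤ A - B := by linarith
        have h8 : 0 ≤ -B := by linarith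
        positivity
    refine int_convex_nonneg (Ψ := fun s => B * s ^ 5 + (A + 6 * ε * B) * s ^ 4 +
        (6 * ε * A + 9 * ε ^ 2 * B - B) * s ^ 3 + (9 * ε ^ 2 * A - A - 6 * ε * B) * s ^ 2 -
        (6 * ε * A + 9 * ε ^ 2 * B) * s - 9 * ε ^ 2 * A)
      (Ψ₁ := fun s => 5 * B * s ^ 4 + 4 * (A + 6 * ε * B) * s ^ 3 +
        3 * (6 * ε * A + 9 * ε ^ 2 * B - B) * s ^ 2 +
        2 * (9 * ε ^ 2 * A - A - 6 * ε * B) * s - (6 * ε * A + 9 * ε ^ 2 * B))
      (Ψ₂ := fun s => 20 * B * s ^ 3 + 12 * (A + 6 * ε * B) * s ^ 2 +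
        6 * (6 * ε * A + 9 * ε ^ 2 * B - B) * s +
        2 * (9 * ε ^ 2 * A - A - 6 * ε * B))
      (φ := fun s => 1 / (1 + b * s) ^ 2 - cc ε b - kk ε b * (s + ε))
      hf h0 hi ?_ ?_ ?_ ?_ ?_ ?_ ?_ ?_ ?_ ?_ ?_
    · intro s
      have h3 : HasDerivAt (fun s => B * s ^ 5 + (A + 6 * ε * B) * s ^ 4 +
        (6 * ε * A + 9 * ε ^ 2 * B - B) * s ^ 3 + (9 * ε ^ 2 * A - A - 6 * ε * B) * s ^ 2 -
        (6 * ε * A + 9 * ε ^ 2 * B) * s - 9 * ε ^ 2 * A) _ s :=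
        (((((((hasDerivAt_pow 5 s).const_mul B).add ((hasDerivAt_pow 4 s).const_mul _)).add
          ((hasDerivAt_pow 3 s).const_mul _)).add ((hasDerivAt_pow 2 s).const_mul _)).sub
          ((hasDerivAt_id s).const_mul _)).sub_const _)
      refine h3.congr_deriv ?_
      norm_num
      ring
    · intro s
      have h3 : HasDerivAt (fun s => 5 * B * s ^ 4 + 4 * (A + 6 * ε * B) * s ^ 3 +
        3 * (6 * ε * A + 9 * ε ^ 2 * B - B) * s ^ 2 +
        2 * (9 * ε ^ 2 * A - A - 6 * ε * B) * s - (6 * ε * A + 9 * ε ^ 2 * B)) _ s :=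
        (((((((hasDerivAt_pow 4 s).const_mul _)).add
          ((hasDerivAt_pow 3 s).const_mul _)).add ((hasDerivAt_pow 2 s).const_mul _)).add
          ((hasDerivAt_id s).const_mul _)).sub_const _)
      refine h3.congr_deriv ?_
      norm_num
      ring
    · fun_prop
    · simp only [hpoly]; norm_num
    · simp only [hpoly]; norm_num
    · intro s hs
      simp only [hpoly]
      have h1 : 0 ≤ 1 - s ^ 2 := by nlinarith [hs.1, hs.2]
      have h2 : 0 ≤ A + B * s := by nlinarith [hs.1, hs.2]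
      have : 0 ≤ (1 - s ^ 2) * (s + 3 * ε) ^ 2 * (A + B * s) := by positivity
      linarith
    · exact (hcω.sub continuousOn_const).sub (Continuous.continuousOn (by fun_prop))
    · have haff : ConvexOn ℝ (Icc (-1 : ℝ) 1) fun s => -cc ε b - kk ε b * (s + ε) := by
        refine ⟨convex_Icc _ _, fun x _ y _ p q _ _ hpq => le_of_eq ?_⟩
        simp only [smul_eq_mul]
        linear_combination (cc ε b + kk ε b * ε) * hpq
      refine ((convexOn_omega hb.le hb').add haff).congr fun s _ => ?_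
      simp only [Pi.add_apply]
      ring
    · have h3 := omega_gt hb hb' (show (-1 : ℝ) ∈ Icc (-1 : ℝ) 1 by norm_num) (by norm_num)
      have h4 := hend (-1) (by norm_num)
      rw [hΨ₂] at h4
      linarith
    · have h3 := omega_gt hb hb' (show (1 : ℝ) ∈ Icc (-1 : ℝ) 1 by norm_num) (by norm_num)
      have h4 := hend 1 (by norm_num)
      rw [hΨ₂] at h4
      linarith
    · intro s hs
      simp only [hΨ₂]
      have := omega_ge hb.le hb' hs
      linarith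
  have i1 : IntegrableOn (fun s => 1 / (1 + b * s) ^ 2 * f s) (Icc (-1) 1) :=
    hi.continuousOn_mul hcω isCompact_Icc
  have i2 : IntegrableOn (fun s => cc ε b * f s) (Icc (-1) 1) := hi.const_mul _
  have i3 : IntegrableOn (fun s => kk ε b * ((s + ε) * f s)) (Icc (-1) 1) :=
    (hi.continuousOn_mul (Continuous.continuousOn (by fun_prop)) isCompact_Icc).const_mul _
  have e : ∫ s in Icc (-1 : ℝ) 1, (1 / (1 + b * s) ^ 2 - cc ε b - kk ε b * (s + ε)) * f s =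
      (∫ s in Icc (-1 : ℝ) 1, 1 / (1 + b * s) ^ 2 * f s) - cc ε b * (∫ s in Icc (-1 : ℝ) 1, f s) -
      kk ε b * ∫ s in Icc (-1 : ℝ) 1, (s + ε) * f s := by
    have i12 : IntegrableOn (fun s => 1 / (1 + b * s) ^ 2 * f s - cc ε b * f s) (Icc (-1) 1) :=
      i1.sub i2
    rw [← integral_const_mul, ← integral_const_mul, ← integral_sub i1 i2,
      ← integral_sub i12 i3]
    refine integral_congr_ae (Filter.Eventually.of_forall fun s => ?_)
    simp only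
    ring
  rw [e, hm] at key
  linarith

theorem poly_pos {x : ℝ} (h0 : 0 ≤ x) (h1 : x ≤ 1 / 9) :
    0 < 8 / 5 - 141 / 40 * x - 1959 / 20 * x ^ 2 + 64179 / 40 * x ^ 3 - 401193 / 32 * x ^ 4 +
      872613 / 20 * x ^ 5 - 11947581 / 160 * x ^ 6 + 1240029 / 20 * x ^ 7 -
      1594323 / 80 * x ^ 8 := by
  have e1 : 0 ≤ x ^ 7 * (1240029 / 20 - 1594323 / 80 * x) :=
    mul_nonneg (by positivity) (by linarith)
  have e2 : 0 ≤ x ^ 5 * (872613 / 20 - 11947581 / 160 * x) :=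
    mul_nonneg (by positivity) (by linarith)
  have e3 : 0 ≤ x ^ 3 * (401193 / 32 * (1 / 9 - x)) := by
    have : 0 ≤ 1 / 9 - x := by linarith
    positivity
  have e4 : 0 < 8 / 5 - 141 / 40 * x - 1959 / 20 * x ^ 2 + (64179 / 40 - 401193 / 288) * x ^ 3 := by
    have h3 : 0 ≤ x * (x - 1 / 9) ^ 2 := by positivity
    have h4 : 0 ≤ x * (1 / 9 - x) := mul_nonneg h0 (by linarith)
    nlinarith
  nlinarith

theorem cc_gt {ε : ℝ} (hε : 0 < ε) (hε' : ε ≤ 1 / 3) :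
    0 < 2 * ε - 9 / 2 * ε ^ 3 ∧ 2 * ε - 9 / 2 * ε ^ 3 ≤ 1 / 2 ∧
    (1 + ε ^ 2) / (1 - ε ^ 2) <
      (1 - (2 * ε - 9 / 2 * ε ^ 3) ^ 2) * cc ε (2 * ε - 9 / 2 * ε ^ 3) := by
  have h2 : ε ^ 2 ≤ 1 / 9 := by nlinarith
  refine ⟨?_, ?_, ?_⟩
  · have : 2 * ε - 9 / 2 * ε ^ 3 = ε * (2 - 9 / 2 * ε ^ 2) := by ring
    rw [this]
    exact mul_pos hε (by linarith)
  · have : 0 ≤ (1 / 3 - ε) * (3 / 2 - 3 / 2 * ε - 9 / 2 * ε ^ 2) :=
      mul_nonneg (by linarith) (by nlinarith)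
    nlinarith
  · rw [div_lt_iff₀ (by linarith)]
    have h3 := mul_pos (pow_pos hε 4) (poly_pos (sq_nonneg ε) h2)
    rw [cc]
    nlinarith

/-- **The one-dimensional inequality**, with the best constant we need. -/
theorem oneD {f : ℝ → ℝ} (hf : ConcaveOn ℝ (Icc (-1) 1) f)
    (h0 : ∀ s ∈ Icc (-1 : ℝ) 1, 0 ≤ f s) (hi : IntegrableOn f (Icc (-1) 1))
    {ε : ℝ} (hε : 0 ≤ ε) (hm : ∫ s in Icc (-1 : ℝ) 1, (s + ε) * f s = 0)
    (hpos : 0 < ∫ s in Icc (-1 : ℝ) 1, f s) :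
    ∃ b : ℝ, 0 ≤ b ∧ b ≤ 1 / 2 ∧
      (1 + ε ^ 2) / (1 - ε ^ 2) * ∫ s in Icc (-1 : ℝ) 1, f s ≤
        ∫ s in Icc (-1 : ℝ) 1, (1 - b ^ 2) / (1 + b * s) ^ 2 * f s ∧
      (0 < ε → (1 + ε ^ 2) / (1 - ε ^ 2) * ∫ s in Icc (-1 : ℝ) 1, f s <
        ∫ s in Icc (-1 : ℝ) 1, (1 - b ^ 2) / (1 + b * s) ^ 2 * f s) := by
  rcases eq_or_lt_of_le hε with h | h
  · refine ⟨0, le_refl _, by norm_num, ?_, fun h' => absurd h' (by rw [← h]; exact lt_irrefl _)⟩
    rw [← h]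
    simp
  have h3 := centroid_ge hf h0 hi
  have i2 : IntegrableOn (fun s => (s + ε) * f s) (Icc (-1) 1) :=
    hi.continuousOn_mul (Continuous.continuousOn (by fun_prop)) isCompact_Icc
  have i3 : IntegrableOn (fun s => (1 / 3 - ε) * f s) (Icc (-1) 1) := hi.const_mul _
  have h4 : ∫ s in Icc (-1 : ℝ) 1, (s + 1 / 3) * f s =
      (∫ s in Icc (-1 : ℝ) 1, (s + ε) * f s) + (1 / 3 - ε) * ∫ s in Icc (-1 : ℝ) 1, f s := by
    rw [← integral_const_mul, ← integral_add i2 i3]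
    refine integral_congr_ae (Filter.Eventually.of_forall fun s => ?_)
    simp only
    ring
  rw [h4, hm, zero_add] at h3
  have hε' : ε ≤ 1 / 3 := by
    by_contra hh
    nlinarith
  obtain ⟨hb, hb', hcc⟩ := cc_gt h hε'
  set b := 2 * ε - 9 / 2 * ε ^ 3
  have h5 := int_omega hf h0 hi h hε' hb hb' hm
  have hb2 : 0 < 1 - b ^ 2 := by nlinarith
  have h6 : ∫ s in Icc (-1 : ℝ) 1, (1 - b ^ 2) / (1 + b * s) ^ 2 * f s =
      (1 - b ^ 2) * ∫ s in Icc (-1 : ℝ) 1, 1 / (1 + b * s) ^ 2 * f s := by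
    rw [← integral_const_mul]
    refine integral_congr_ae (Filter.Eventually.of_forall fun s => ?_)
    simp only
    ring
  have h7 : (1 + ε ^ 2) / (1 - ε ^ 2) * ∫ s in Icc (-1 : ℝ) 1, f s <
      ∫ s in Icc (-1 : ℝ) 1, (1 - b ^ 2) / (1 + b * s) ^ 2 * f s := by
    rw [h6]
    calc (1 + ε ^ 2) / (1 - ε ^ 2) * ∫ s in Icc (-1 : ℝ) 1, f s
        < (1 - b ^ 2) * cc ε b * ∫ s in Icc (-1 : ℝ) 1, f s := mul_lt_mul_of_pos_right hcc hpos
      _ = (1 - b ^ 2) * (cc ε b * ∫ s in Icc (-1 : ℝ) 1, f s) := by ring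
      _ ≤ _ := mul_le_mul_of_nonneg_left h5 hb2.le
  exact ⟨b, hb.le, hb', h7.le, fun _ => h7⟩

end Pool.Agent.Lib.MP_1dedaf_gt
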