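import Pool.Agent.Lib.MP_1dedaf_gt.OneD

/-!
# The planar inequality in coordinates
-/

set_option autoImplicit false

namespace Pool.Agent.Lib.MP_1dedaf_gt

open MeasureTheory Set
open scoped Pointwise ENNReal

/-- The slice. -/
def sl (K : Set (ℝ × ℝ)) (τ : ℝ) : Set ℝ := Prod.mk τ ⁻¹' K

/-- The length of the slice. -/
noncomputable def len (K : Set (ℝ × ℝ)) (τ : ℝ) : ℝ := volume.real (sl K τ)

theorem sl_compact {K : Set (ℝ × ℝ)} (hK : IsCompact K) (τ : ℝ) : IsCompact (sl K τ) := by
  refine (hK.image continuous_snd).of_isClosed_subset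
    (hK.isClosed.preimage (by fun_prop)) ?_
  intro y hy
  exact ⟨(τ, y), hy, rfl⟩

theorem sl_eq {K : Set (ℝ × ℝ)} (hK : IsCompact K) (hc : Convex ℝ K) {τ : ℝ}
    (hne : (sl K τ).Nonempty) : sl K τ = Icc (sInf (sl K τ)) (sSup (sl K τ)) := by
  have h1 := sl_compact hK τ
  have hconv : Convex ℝ (sl K τ) := by
    intro x hx y hy a b ha hb hab
    have := hc hx hy ha hb hab
    have e : a • (τ, x) + b • (τ, y) = (τ, a • x + b • y) := by
      ext
      · simp only [Prod.fst_add, Prod.smul_fst, smul_eq_mul]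
        linear_combination τ * hab
      · simp
    rw [e] at this
    exact this
  refine Subset.antisymm (fun y hy => ⟨csInf_le h1.bddBelow hy, le_csSup h1.bddAbove hy⟩) ?_
  exact hconv.ordConnected.out (h1.sInf_mem hne) (h1.sSup_mem hne)

theorem len_eq {K : Set (ℝ × ℝ)} (hK : IsCompact K) (hc : Convex ℝ K) {τ : ℝ}
    (hne : (sl K τ).Nonempty) : len K τ = sSup (sl K τ) - sInf (sl K τ) := by
  have h1 := sl_compact hK τ
  have h2 : sInf (sl K τ) ≤ sSup (sl K τ) := by
    obtain ⟨x, hx⟩ := hne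
    exact (csInf_le h1.bddBelow hx).trans (le_csSup h1.bddAbove hx)
  calc len K τ = volume.real (Icc (sInf (sl K τ)) (sSup (sl K τ))) := by
        rw [len, ← sl_eq hK hc hne]
    _ = _ := Real.volume_real_Icc_of_le h2

theorem len_nonneg (K : Set (ℝ × ℝ)) (τ : ℝ) : 0 ≤ len K τ := measureReal_nonneg

theorem len_measurable {K : Set (ℝ × ℝ)} (hK : IsCompact K) : Measurable (len K) :=
  (measurable_measure_prodMk_left hK.measurableSet).ennreal_toReal

theorem len_le {K : Set (ℝ × ℝ)} (hK : IsCompact K) (τ : ℝ) :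
    len K τ ≤ volume.real (Prod.snd '' K) := by
  refine measureReal_mono ?_ (hK.image continuous_snd).measure_lt_top.ne
  intro y hy
  exact ⟨(τ, y), hy, rfl⟩

theorem int_slice {K : Set (ℝ × ℝ)} (hK : IsCompact K) {c : ℝ → ℝ} (hc : Continuous c) :
    ∫ x in K, c x.1 = ∫ τ, c τ * len K τ := by
  rw [← integral_indicator hK.measurableSet, Measure.volume_eq_prod, integral_prod]
  · refine integral_congr_ae (Filter.Eventually.of_forall fun τ => ?_)
    simp only
    have : (fun y => K.indicator (fun x : ℝ × ℝ => c x.1) (τ, y)) =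
        (sl K τ).indicator fun _ => c τ := by
      ext y
      by_cases h : (τ, y) ∈ K
      · rw [indicator_of_mem h, indicator_of_mem (show y ∈ sl K τ from h)]
      · rw [indicator_of_notMem h, indicator_of_notMem (show y ∉ sl K τ from h)]
    rw [this, integral_indicator (sl_compact hK τ).measurableSet, setIntegral_const, len,
      smul_eq_mul, mul_comm]
  · rw [← Measure.volume_eq_prod, integrable_indicator_iff hK.measurableSet]
    exact (Continuous.continuousOn (by fun_prop)).integrableOn_compact hK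

/-- `K` projects onto `[-l', l]`. -/
structure Proj (K : Set (ℝ × ℝ)) (l l' : ℝ) : Prop where
  cpt : IsCompact K
  conv : Convex ℝ K
  le : ∀ x ∈ K, x.1 ≤ l
  ge : ∀ x ∈ K, -l' ≤ x.1
  top : ∃ x ∈ K, x.1 = l
  bot : ∃ x ∈ K, x.1 = -l'
  pos : 0 < l
  pos' : 0 < l'

variable {K : Set (ℝ × ℝ)} {l l' : ℝ}

theorem Proj.sl_nonempty (h : Proj K l l') {τ : ℝ} (hτ : τ ∈ Icc (-l') l) :
    (sl K τ).Nonempty := by
  obtain ⟨x, hx, hxl⟩ := h.top
  obtain ⟨y, hy, hyl⟩ := h.bot
  have hd : 0 < l + l' := add_pos h.pos h.pos'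
  have h1 := h.conv hx hy (a := (τ + l') / (l + l')) (b := (l - τ) / (l + l'))
    (div_nonneg (by linarith [hτ.1]) hd.le) (div_nonneg (by linarith [hτ.2]) hd.le)
    (by field_simp; ring)
  refine ⟨((τ + l') / (l + l')) * x.2 + ((l - τ) / (l + l')) * y.2, ?_⟩
  have e : ((τ + l') / (l + l')) • x + ((l - τ) / (l + l')) • y =
      (τ, ((τ + l') / (l + l')) * x.2 + ((l - τ) / (l + l')) * y.2) := by
    ext
    · simp only [Prod.fst_add, Prod.smul_fst, smul_eq_mul, hxl, hyl]
      field_simp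
      ring
    · simp
  rw [e] at h1
  exact h1

theorem Proj.len_zero (h : Proj K l l') {τ : ℝ} (hτ : τ ∉ Icc (-l') l) : len K τ = 0 := by
  have : sl K τ = ∅ := by
    ext y
    simp only [mem_empty_iff_false, iff_false]
    intro hy
    exact hτ ⟨h.ge _ hy, h.le _ hy⟩
  rw [len, this]
  simp

theorem Proj.concave (h : Proj K l l') : ConcaveOn ℝ (Icc (-l') l) (len K) := by
  refine ⟨convex_Icc _ _, fun x hx y hy a b ha hb hab => ?_⟩
  have hz : a • x + b • y ∈ Icc (-l') l := (convex_Icc (-l') l) hx hy ha hb hab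
  rw [len_eq h.cpt h.conv (h.sl_nonempty hx), len_eq h.cpt h.conv (h.sl_nonempty hy),
    len_eq h.cpt h.conv (h.sl_nonempty hz)]
  have hmem : ∀ u ∈ sl K x, ∀ v ∈ sl K y, a * u + b * v ∈ sl K (a • x + b • y) := by
    intro u hu v hv
    have := h.conv hu hv ha hb hab
    have e : a • (x, u) + b • (y, v) = (a • x + b • y, a * u + b * v) := by
      ext <;> simp
    rw [e] at this
    exact this
  have cx := sl_compact h.cpt x
  have cy := sl_compact h.cpt y
  have cz := sl_compact h.cpt (a • x + b • y)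
  have h1 := le_csSup cz.bddAbove (hmem _ (cx.sSup_mem (h.sl_nonempty hx)) _
    (cy.sSup_mem (h.sl_nonempty hy)))
  have h2 := csInf_le cz.bddBelow (hmem _ (cx.sInf_mem (h.sl_nonempty hx)) _
    (cy.sInf_mem (h.sl_nonempty hy)))
  simp only [smul_eq_mul] at h1 h2 ⊢
  linarith

/-- Slices of `α K - β K`. -/
theorem Proj.slice_sum (h : Proj K l l') (α β : ℝ) {τ σ : ℝ}
    (hτ : τ ∈ Icc (-l') l) (hσ : σ ∈ Icc (-l') l) :
    ENNReal.ofReal (α * len K τ + β * len K σ) ≤
      volume (sl (α • K + (-β) • K) (α * τ - β * σ)) := by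
  rw [len_eq h.cpt h.conv (h.sl_nonempty hτ), len_eq h.cpt h.conv (h.sl_nonempty hσ)]
  have c1 := sl_compact h.cpt τ
  have c2 := sl_compact h.cpt σ
  have hmem : ∀ u ∈ sl K τ, ∀ v ∈ sl K σ, α * u - β * v ∈ sl (α • K + (-β) • K) (α * τ - β * σ) := by
    intro u hu v hv
    refine ⟨α • (τ, u), ⟨_, hu, rfl⟩, (-β) • (σ, v), ⟨_, hv, rfl⟩, ?_⟩
    ext <;> simp [sub_eq_add_neg]
  have hMc : IsCompact (α • K + (-β) • K) := (h.cpt.smul α).add (h.cpt.smul (-β))
  have hMv : Convex ℝ (α • K + (-β) • K) := (h.conv.smul α).add (h.conv.smul (-β))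
  have m1 := hmem _ (c1.sInf_mem (h.sl_nonempty hτ)) _ (c2.sSup_mem (h.sl_nonempty hσ))
  have m2 := hmem _ (c1.sSup_mem (h.sl_nonempty hτ)) _ (c2.sInf_mem (h.sl_nonempty hσ))
  have hord : OrdConnected (sl (α • K + (-β) • K) (α * τ - β * σ)) := by
    rw [sl_eq hMc hMv ⟨_, m1⟩]
    exact ordConnected_Icc
  refine le_trans (le_of_eq ?_) (measure_mono (hord.out m1 m2))
  rw [Real.volume_Icc]
  congr 1
  ring

/-- A lower bound of a volume by a parametrization of the slices. -/
theorem coupling {M : Set (ℝ × ℝ)} (hM : MeasurableSet M) {G G' w : ℝ → ℝ}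
    (hG : ∀ s ∈ Icc (-1 : ℝ) 1, HasDerivWithinAt G (G' s) (Icc (-1) 1) s)
    (hG' : ∀ s ∈ Icc (-1 : ℝ) 1, 0 ≤ G' s) (hinj : InjOn G (Icc (-1) 1))
    (hw : ∀ s ∈ Icc (-1 : ℝ) 1, ENNReal.ofReal (w s) ≤ volume (sl M (G s)))
    (hw0 : ∀ s ∈ Icc (-1 : ℝ) 1, 0 ≤ w s)
    (hi : IntegrableOn (fun s => G' s * w s) (Icc (-1) 1)) :
    ENNReal.ofReal (∫ s in Icc (-1 : ℝ) 1, G' s * w s) ≤ volume M := by
  have h1 : volume M = ∫⁻ τ, volume (sl M τ) := by
    rw [Measure.volume_eq_prod, Measure.prod_apply hM]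
    rfl
  rw [h1]
  calc ENNReal.ofReal (∫ s in Icc (-1 : ℝ) 1, G' s * w s)
      = ∫⁻ s in Icc (-1 : ℝ) 1, ENNReal.ofReal (G' s * w s) := by
        refine ofReal_integral_eq_lintegral_ofReal hi ?_
        refine (ae_restrict_iff' measurableSet_Icc).2 (Filter.Eventually.of_forall fun s hs => ?_)
        exact mul_nonneg (hG' s hs) (hw0 s hs)
    _ ≤ ∫⁻ s in Icc (-1 : ℝ) 1, ENNReal.ofReal |G' s| * volume (sl M (G s)) := by
        refine setLIntegral_mono' measurableSet_Icc fun s hs => ?_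
        rw [ENNReal.ofReal_mul (hG' s hs), abs_of_nonneg (hG' s hs)]
        exact mul_le_mul_right (hw s hs) _
    _ = ∫⁻ τ in G '' Icc (-1 : ℝ) 1, volume (sl M τ) :=
        (lintegral_image_eq_lintegral_abs_deriv_mul measurableSet_Icc hG hinj
          fun τ => volume (sl M τ)).symm
    _ ≤ ∫⁻ τ, volume (sl M τ) := setLIntegral_le_lintegral _ _

/-- The Möbius involution. -/
noncomputable def mob (b s : ℝ) : ℝ := -(s + b) / (1 + b * s)

/-- Its density. -/
noncomputable def om (b s : ℝ) : ℝ := (1 - b ^ 2) / (1 + b * s) ^ 2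

theorem den_pos {b s : ℝ} (hb : 0 ≤ b) (hb' : b ≤ 1 / 2) (hs : s ∈ Icc (-1 : ℝ) 1) :
    0 < 1 + b * s := by nlinarith [hs.1, hs.2]

theorem mob_mem {b s : ℝ} (hb : 0 ≤ b) (hb' : b ≤ 1 / 2) (hs : s ∈ Icc (-1 : ℝ) 1) :
    mob b s ∈ Icc (-1 : ℝ) 1 := by
  have h := den_pos hb hb' hs
  constructor
  · rw [mob, le_div_iff₀ h]
    nlinarith [hs.1, hs.2]
  · rw [mob, div_le_iff₀ h]
    nlinarith [hs.1, hs.2]

theorem mob_mob {b s : ℝ} (hb : 0 ≤ b) (hb' : b ≤ 1 / 2) (hs : s ∈ Icc (-1 : ℝ) 1) :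
    mob b (mob b s) = s := by
  have h := den_pos hb hb' hs
  have h' := den_pos hb hb' (mob_mem hb hb' hs)
  have e : mob b s * (1 + b * s) = -(s + b) := by
    rw [mob]
    exact div_mul_cancel₀ _ h.ne'
  have e2 : mob b (mob b s) = -(mob b s + b) / (1 + b * mob b s) := rfl
  rw [e2, div_eq_iff h'.ne']
  linear_combination -e

theorem om_mob {b s : ℝ} (hb : 0 ≤ b) (hb' : b ≤ 1 / 2) (hs : s ∈ Icc (-1 : ℝ) 1) :
    om b s * om b (mob b s) = 1 := by
  have h := den_pos hb hb' hs
  have h' := den_pos hb hb' (mob_mem hb hb' hs)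
  have e : (1 + b * mob b s) * (1 + b * s) = 1 - b ^ 2 := by
    rw [mob]
    field_simp
    ring
  have hb2 : 1 - b ^ 2 ≠ 0 := by nlinarith
  rw [om, om, div_mul_div_comm, ← mul_pow, mul_comm (1 + b * s), e]
  field_simp

theorem om_pos {b s : ℝ} (hb : 0 ≤ b) (hb' : b ≤ 1 / 2) (hs : s ∈ Icc (-1 : ℝ) 1) :
    0 < om b s := by
  have h := den_pos hb hb' hs
  have hb2 : 0 < 1 - b ^ 2 := by nlinarith
  exact div_pos hb2 (by positivity)

theorem mob_deriv {b s : ℝ} (hb : 0 ≤ b) (hb' : b ≤ 1 / 2) (hs : s ∈ Icc (-1 : ℝ) 1) :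
    HasDerivAt (mob b) (-om b s) s := by
  have h := den_pos hb hb' hs
  have h1 : HasDerivAt (fun s : ℝ => -(s + b)) (-1) s := ((hasDerivAt_id s).add_const b).neg
  have h2 : HasDerivAt (fun s : ℝ => 1 + b * s) (b * 1) s :=
    ((hasDerivAt_id s).const_mul b).const_add 1
  refine (h1.div h2 h.ne').congr_deriv ?_
  rw [om]
  field_simp
  ring

theorem mob_lt {b s s' : ℝ} (hb : 0 ≤ b) (hb' : b ≤ 1 / 2) (hs : s ∈ Icc (-1 : ℝ) 1)
    (hs' : s' ∈ Icc (-1 : ℝ) 1) (h : s < s') : mob b s' < mob b s := by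
  have h1 := den_pos hb hb' hs
  have h2 := den_pos hb hb' hs'
  have hb2 : 0 < 1 - b ^ 2 := by nlinarith
  rw [mob, mob, div_lt_div_iff₀ h2 h1]
  nlinarith

theorem mob_image {b : ℝ} (hb : 0 ≤ b) (hb' : b ≤ 1 / 2) :
    mob b '' Icc (-1) 1 = Icc (-1) 1 := by
  ext x
  constructor
  · rintro ⟨s, hs, rfl⟩
    exact mob_mem hb hb' hs
  · intro hx
    exact ⟨mob b x, mob_mem hb hb' hx, mob_mob hb hb' hx⟩

/-- Change of variables for the involution. -/
theorem mob_integral {b : ℝ} (hb : 0 ≤ b) (hb' : b ≤ 1 / 2) (f : ℝ → ℝ) :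
    ∫ s in Icc (-1 : ℝ) 1, f s = ∫ s in Icc (-1 : ℝ) 1, om b s * f (mob b s) := by
  have h := integral_image_eq_integral_abs_deriv_smul measurableSet_Icc
    (fun s hs => (mob_deriv hb hb' hs).hasDerivWithinAt)
    (show InjOn (mob b) (Icc (-1) 1) from fun x hx y hy hxy => by
      rw [← mob_mob hb hb' hx, hxy, mob_mob hb hb' hy]) f
  rw [mob_image hb hb'] at h
  rw [h]
  refine setIntegral_congr_fun measurableSet_Icc fun s hs => ?_
  simp only [abs_neg, smul_eq_mul, abs_of_pos (om_pos hb hb' hs)]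

theorem Proj.param_mem (h : Proj K l l') {s : ℝ} (hs : s ∈ Icc (-1 : ℝ) 1) :
    (l + l') / 2 * s + (l - l') / 2 ∈ Icc (-l') l := by
  have := h.pos
  have := h.pos'
  constructor <;> nlinarith [hs.1, hs.2]

theorem Proj.int (h : Proj K l l') {c : ℝ → ℝ} (hc : Continuous c) :
    ∫ x in K, c x.1 = (l + l') / 2 * ∫ s in Icc (-1 : ℝ) 1,
      c ((l + l') / 2 * s + (l - l') / 2) * len K ((l + l') / 2 * s + (l - l') / 2) := by
  have h1 := h.pos
  have h2 := h.pos'
  have hd : (l + l') / 2 ≠ 0 := by positivity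
  rw [int_slice h.cpt hc, integral_Icc_eq_integral_Ioc,
    ← intervalIntegral.integral_of_le (by norm_num : (-1 : ℝ) ≤ 1),
    intervalIntegral.integral_comp_mul_add (fun τ => c τ * len K τ) hd,
    smul_eq_mul, ← mul_assoc, mul_inv_cancel₀ hd, one_mul]
  have e1 : (l + l') / 2 * -1 + (l - l') / 2 = -l' := by ring
  have e2 : (l + l') / 2 * 1 + (l - l') / 2 = l := by ring
  rw [e1, e2, intervalIntegral.integral_of_le (by linarith), ← integral_Icc_eq_integral_Ioc]
  refine (setIntegral_eq_integral_of_forall_compl_eq_zero fun τ hτ => ?_).symm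
  rw [h.len_zero hτ, mul_zero]

theorem Proj.concave' (h : Proj K l l') :
    ConcaveOn ℝ (Icc (-1) 1) fun s => len K ((l + l') / 2 * s + (l - l') / 2) := by
  refine ⟨convex_Icc _ _, fun x hx y hy a b ha hb hab => ?_⟩
  have := h.concave.2 (h.param_mem hx) (h.param_mem hy) ha hb hab
  refine this.trans (le_of_eq ?_)
  simp only [smul_eq_mul]
  congr 1
  linear_combination (l - l') / 2 * hab

/-- **The planar inequality.** -/
theorem Proj.main (h : Proj K l l') (hll : l' ≤ l) (h0 : ∫ x in K, x.1 = 0)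
    (hpos : 0 < volume.real K) {α β : ℝ} (hα : 0 < α) (hβ : 0 < β) :
    (α ^ 2 + β ^ 2 + α * β * (l / l' + l' / l)) * volume.real K ≤
      volume.real (α • K + (-β) • K) ∧
    (l' < l → (α ^ 2 + β ^ 2 + α * β * (l / l' + l' / l)) * volume.real K <
      volume.real (α • K + (-β) • K)) := by
  have hl := h.pos
  have hl' := h.pos'
  set d : ℝ := (l + l') / 2 with hd
  set e : ℝ := (l - l') / 2 with he
  have hd0 : 0 < d := by positivity
  have he0 : 0 ≤ e := by rw [he]; linarith
  set ε : ℝ := e / d with hε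
  have hε0 : 0 ≤ ε := div_nonneg he0 hd0.le
  have hde : d * ε = e := by rw [hε]; field_simp
  set ℓ : ℝ → ℝ := fun s => len K (d * s + e) with hℓ
  have hℓm : Measurable ℓ := (len_measurable h.cpt).comp (by fun_prop)
  have hℓ0 : ∀ s, 0 ≤ ℓ s := fun s => len_nonneg K _
  have hℓb : ∀ s, ‖ℓ s‖ ≤ volume.real (Prod.snd '' K) := fun s => by
    rw [Real.norm_of_nonneg (hℓ0 s)]
    exact len_le h.cpt _
  have hℓc : ConcaveOn ℝ (Icc (-1) 1) ℓ := h.concave'
  have hint : ∀ (u v : ℝ → ℝ), ContinuousOn u (Icc (-1) 1) → Measurable v →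
      IntegrableOn (fun s => u s * ℓ (v s)) (Icc (-1) 1) := by
    intro u v hu hv
    have h1 : IntegrableOn (fun s => ℓ (v s)) (Icc (-1) 1) := by
      refine Measure.integrableOn_of_bounded (M := volume.real (Prod.snd '' K)) (by simp)
        (hℓm.comp hv).aestronglyMeasurable (Filter.Eventually.of_forall fun s => hℓb _)
    exact h1.continuousOn_mul hu isCompact_Icc
  have hi : IntegrableOn ℓ (Icc (-1) 1) := by
    have := hint (fun _ => 1) id continuousOn_const measurable_id
    simpa using this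
  have hV : volume.real K = d * ∫ s in Icc (-1 : ℝ) 1, ℓ s := by
    have := h.int (c := fun _ => 1) continuous_const
    simp only [one_mul] at this
    rw [← this]
    simp
  have hm : ∫ s in Icc (-1 : ℝ) 1, (s + ε) * ℓ s = 0 := by
    have h1 := h.int (c := fun τ => τ) continuous_id
    rw [h0] at h1
    have h2 : ∫ s in Icc (-1 : ℝ) 1, (d * s + e) * ℓ s = 0 := by
      rcases mul_eq_zero.1 h1.symm with h3 | h3
      · exact absurd h3 hd0.ne'
      · exact h3
    have h3 : ∫ s in Icc (-1 : ℝ) 1, (d * s + e) * ℓ s =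
        d * ∫ s in Icc (-1 : ℝ) 1, (s + ε) * ℓ s := by
      rw [← integral_const_mul]
      refine integral_congr_ae (Filter.Eventually.of_forall fun s => ?_)
      simp only
      rw [← hde]
      ring
    rw [h3] at h2
    exact (mul_eq_zero.1 h2).resolve_left hd0.ne'
  have hI : 0 < ∫ s in Icc (-1 : ℝ) 1, ℓ s := by
    by_contra hn
    push Not at hn
    have := mul_nonpos_of_nonneg_of_nonpos hd0.le hn
    linarith
  obtain ⟨b, hb, hb', hone, hone'⟩ := oneD hℓc (fun s _ => hℓ0 s) hi hε0 hm hI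
  have hq : (1 + ε ^ 2) / (1 - ε ^ 2) = (l / l' + l' / l) / 2 := by
    have e1 : d * (1 + ε) = l := by rw [mul_add, hde, hd, he]; ring
    have e2 : d * (1 - ε) = l' := by rw [mul_sub, hde, hd, he]; ring
    have h1 : 0 < 1 - ε := by
      by_contra hn
      push Not at hn
      have := mul_nonpos_of_nonneg_of_nonpos hd0.le hn
      linarith
    have h2 : 0 < 1 + ε := by linarith
    have h3 : 1 - ε ^ 2 ≠ 0 := by
      have : 1 - ε ^ 2 = (1 - ε) * (1 + ε) := by ring
      rw [this]
      positivity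
    rw [← e1, ← e2]
    field_simp
    ring
  set I := ∫ s in Icc (-1 : ℝ) 1, ℓ s with hIdef
  set J := ∫ s in Icc (-1 : ℝ) 1, (1 - b ^ 2) / (1 + b * s) ^ 2 * ℓ s with hJdef
  have hcom : ContinuousOn (om b) (Icc (-1) 1) := by
    unfold om
    refine ContinuousOn.div continuousOn_const (by fun_prop) fun s hs => ?_
    have := den_pos hb hb' hs
    positivity
  have hmm : Measurable (mob b) := by
    unfold mob
    fun_prop
  have hcp := coupling (M := α • K + (-β) • K)
    ((h.cpt.smul α).add (h.cpt.smul (-β))).measurableSet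
    (G := fun s => α * (d * s + e) - β * (d * mob b s + e))
    (G' := fun s => d * (α + β * om b s))
    (w := fun s => α * ℓ s + β * ℓ (mob b s)) ?_ ?_ ?_ ?_ ?_ ?_
  · have hvol : ∫ s in Icc (-1 : ℝ) 1, d * (α + β * om b s) * (α * ℓ s + β * ℓ (mob b s)) =
        d * ((α ^ 2 + β ^ 2) * I + 2 * (α * β) * J) := by
      have i1 := hint (fun _ => α ^ 2) id continuousOn_const measurable_id
      have i2 := hint (fun s => α * β * om b s) id (continuousOn_const.mul hcom) measurable_id
      have i3 := hint (fun _ => α * β) (mob b) continuousOn_const hmm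
      have i4 := hint (fun s => β ^ 2 * om b s) (mob b) (continuousOn_const.mul hcom) hmm
      have j1 : ∫ s in Icc (-1 : ℝ) 1, α ^ 2 * ℓ (id s) = α ^ 2 * I := integral_const_mul _ _
      have j2 : ∫ s in Icc (-1 : ℝ) 1, α * β * om b s * ℓ (id s) = α * β * J := by
        rw [hJdef, ← integral_const_mul]
        refine integral_congr_ae (Filter.Eventually.of_forall fun s => ?_)
        simp only [id, om]
        ring
      have j3 : ∫ s in Icc (-1 : ℝ) 1, α * β * ℓ (mob b s) = α * β * J := by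
        rw [integral_const_mul]
        congr 1
        have := mob_integral hb hb' (fun s => om b s * ℓ s)
        have hJ : J = ∫ s in Icc (-1 : ℝ) 1, om b s * ℓ s := rfl
        rw [hJ, this]
        refine setIntegral_congr_fun measurableSet_Icc fun s hs => ?_
        rw [← mul_assoc, om_mob hb hb' hs, one_mul]
      have j4 : ∫ s in Icc (-1 : ℝ) 1, β ^ 2 * om b s * ℓ (mob b s) = β ^ 2 * I := by
        rw [hIdef, mob_integral hb hb' ℓ, ← integral_const_mul]
        refine integral_congr_ae (Filter.Eventually.of_forall fun s => ?_)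
        simp only
        ring
      have hsum : ∫ s in Icc (-1 : ℝ) 1, (α ^ 2 * ℓ (id s) + α * β * om b s * ℓ (id s) +
          α * β * ℓ (mob b s) + β ^ 2 * om b s * ℓ (mob b s)) =
          α ^ 2 * I + α * β * J + α * β * J + β ^ 2 * I := by
        have i12 : IntegrableOn (fun s => α ^ 2 * ℓ (id s) + α * β * om b s * ℓ (id s))
          (Icc (-1) 1) := i1.add i2
        have i123 : IntegrableOn (fun s => α ^ 2 * ℓ (id s) + α * β * om b s * ℓ (id s) +
          α * β * ℓ (mob b s)) (Icc (-1) 1) := i12.add i3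
        rw [integral_add i123 i4, integral_add i12 i3, integral_add i1 i2, j1, j2, j3, j4]
      have hfin : ∫ s in Icc (-1 : ℝ) 1, d * (α + β * om b s) * (α * ℓ s + β * ℓ (mob b s)) =
          d * ∫ s in Icc (-1 : ℝ) 1, (α ^ 2 * ℓ (id s) + α * β * om b s * ℓ (id s) +
          α * β * ℓ (mob b s) + β ^ 2 * om b s * ℓ (mob b s)) := by
        rw [← integral_const_mul]
        refine integral_congr_ae (Filter.Eventually.of_forall fun s => ?_)
        simp only [id]
        ring
      rw [hfin, hsum]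
      ring
    rw [hvol] at hcp
    have hfinM : volume (α • K + (-β) • K) ≠ ⊤ :=
      ((h.cpt.smul α).add (h.cpt.smul (-β))).measure_lt_top.ne
    have hge : d * ((α ^ 2 + β ^ 2) * I + 2 * (α * β) * J) ≤ volume.real (α • K + (-β) • K) :=
      (ENNReal.ofReal_le_iff_le_toReal hfinM).1 hcp
    rw [hq] at hone hone'
    have hVd : volume.real K = d * I := hV
    have hαβ : 0 < α * β := mul_pos hα hβ
    have key : (α ^ 2 + β ^ 2 + α * β * (l / l' + l' / l)) * volume.real K =
        d * ((α ^ 2 + β ^ 2) * I + 2 * (α * β) * ((l / l' + l' / l) / 2 * I)) := by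
      rw [hVd]; ring
    constructor
    · rw [key]
      refine le_trans ?_ hge
      have := mul_le_mul_of_nonneg_left hone (mul_pos two_pos hαβ).le
      exact mul_le_mul_of_nonneg_left (by linarith) hd0.le
    · intro hlt
      rw [key]
      refine lt_of_lt_of_le ?_ hge
      have hεp : 0 < ε := div_pos (by rw [he]; linarith) hd0
      have := mul_lt_mul_of_pos_left (hone' hεp) (mul_pos two_pos hαβ)
      exact mul_lt_mul_of_pos_left (by linarith) hd0
  · intro s hs
    have h1 : HasDerivAt (fun s => α * (d * s + e) - β * (d * mob b s + e)) _ s :=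
      ((((hasDerivAt_id s).const_mul d).add_const e).const_mul α).sub
        ((((mob_deriv hb hb' hs).const_mul d).add_const e).const_mul β)
    exact (h1.congr_deriv (by ring)).hasDerivWithinAt
  · intro s hs
    have := om_pos hb hb' hs
    positivity
  · have hmono : ∀ x ∈ Icc (-1 : ℝ) 1, ∀ y ∈ Icc (-1 : ℝ) 1, x < y →
        α * (d * x + e) - β * (d * mob b x + e) < α * (d * y + e) - β * (d * mob b y + e) := by
      intro x hx y hy hxy
      have h1 := mob_lt hb hb' hx hy hxy
      have h2 : α * (d * x + e) < α * (d * y + e) := by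
        apply mul_lt_mul_of_pos_left _ hα
        have := mul_lt_mul_of_pos_left hxy hd0
        linarith
      have h3 : β * (d * mob b y + e) < β * (d * mob b x + e) := by
        apply mul_lt_mul_of_pos_left _ hβ
        have := mul_lt_mul_of_pos_left h1 hd0
        linarith
      linarith
    intro x hx y hy hxy
    simp only at hxy
    rcases lt_trichotomy x y with h1 | h1 | h1
    · exact absurd hxy (hmono x hx y hy h1).ne
    · exact h1
    · exact absurd hxy (hmono y hy x hx h1).ne'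
  · intro s hs
    exact h.slice_sum α β (h.param_mem hs) (h.param_mem (mob_mem hb hb' hs))
  · intro s _
    exact add_nonneg (mul_nonneg hα.le (hℓ0 _)) (mul_nonneg hβ.le (hℓ0 _))
  · have i1 := hint (fun s => d * (α + β * om b s) * α) id
      ((continuousOn_const.mul (continuousOn_const.add (continuousOn_const.mul hcom))).mul
        continuousOn_const) measurable_id
    have i2 := hint (fun s => d * (α + β * om b s) * β) (mob b)
      ((continuousOn_const.mul (continuousOn_const.add (continuousOn_const.mul hcom))).mul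
        continuousOn_const) hmm
    refine (i1.add i2).congr (Filter.Eventually.of_forall fun s => ?_)
    simp only [Pi.add_apply, id]
    ring

end Pool.Agent.Lib.MP_1dedaf_gt
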