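import Pool.Agent.Lib.MP_1dedaf_gt.Plane

/-!
# Transfer to the Euclidean plane
-/

set_option autoImplicit false

namespace Pool.Agent.Lib.MP_1dedaf_gt

open MeasureTheory Set
open scoped Pointwise ENNReal

/-- The Euclidean plane. -/
abbrev E2 : Type := EuclideanSpace ℝ (Fin 2)

/-- The support function. -/
noncomputable def hh (K : Set E2) (u : E2) : ℝ := sSup ((fun y => inner ℝ y u) '' K)

theorem exists_coord {u : E2} (hu : ‖u‖ = 1) :
    ∃ φ : E2 ≃ₗ[ℝ] ℝ × ℝ, Continuous φ ∧ Continuous φ.symm ∧
      MeasurePreserving φ (volume : Measure E2) volume ∧ ∀ x, (φ x).1 = inner ℝ x u := by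
  have hort : Orthonormal ℝ (({0} : Set (Fin 2)).domRestrict fun _ : Fin 2 => u) := by
    refine ⟨fun i => hu, fun i j hij => ?_⟩
    exact absurd (Subsingleton.elim i j) hij
  obtain ⟨b, hb⟩ := hort.exists_orthonormalBasis_extension_of_card_eq
    (ι := Fin 2) (v := fun _ => u) (by simp)
  have hb0 : b 0 = u := hb 0 rfl
  let φ : E2 ≃ₗ[ℝ] ℝ × ℝ := b.repr.toLinearEquiv ≪≫ₗ (WithLp.linearEquiv 2 ℝ (Fin 2 → ℝ)) ≪≫ₗ
    LinearEquiv.finTwoArrow ℝ ℝ
  refine ⟨φ, φ.toLinearMap.continuous_of_finiteDimensional,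
    φ.symm.toLinearMap.continuous_of_finiteDimensional, ?_, ?_⟩
  · have h1 : MeasurePreserving b.repr (volume : Measure E2) volume := b.measurePreserving_repr
    have h2 : MeasurePreserving (@WithLp.ofLp 2 (Fin 2 → ℝ)) volume volume :=
      PiLp.volume_preserving_ofLp _
    have h3 : MeasurePreserving (@MeasurableEquiv.finTwoArrow ℝ _) volume volume :=
      volume_preserving_finTwoArrow ℝ
    exact h3.comp (h2.comp h1)
  · intro x
    have : (φ x).1 = b.repr x 0 := rfl
    rw [this, b.repr_apply_apply, hb0, real_inner_comm]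

section supp

variable {K : Set E2} (hK : IsCompact K)

include hK

theorem bdd_inner (u : E2) : BddAbove ((fun y => inner ℝ y u) '' K) :=
  (hK.image (by fun_prop)).bddAbove

theorem le_hh {x : E2} (hx : x ∈ K) (u : E2) : inner ℝ x u ≤ hh K u :=
  le_csSup (bdd_inner hK u) ⟨x, hx, rfl⟩

theorem exists_hh (hne : K.Nonempty) (u : E2) : ∃ x ∈ K, inner ℝ x u = hh K u := by
  have h := (hK.image (show Continuous fun y : E2 => inner ℝ y u by fun_prop)).sSup_mem
    (hne.image _)
  exact h

theorem continuous_hh : Continuous (hh K) := by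
  have : Continuous fun u => sSup ((fun u y => inner ℝ y u) u '' K) :=
    hK.continuous_sSup (by
      have : Continuous fun p : E2 × E2 => (inner ℝ p.2 p.1 : ℝ) := by fun_prop
      exact this)
  exact this

theorem int_inner (u : E2) : ∫ x in K, (inner ℝ x u : ℝ) = inner ℝ (∫ x in K, x) u := by
  have hi : IntegrableOn (fun x : E2 => x) K := continuousOn_id.integrableOn_compact hK
  have := integral_inner (𝕜 := ℝ) hi u
  rw [real_inner_comm, ← this]
  exact integral_congr_ae (Filter.Eventually.of_forall fun x => real_inner_comm _ _)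

theorem hh_pos (hint : (interior K).Nonempty) (h0 : ∫ x in K, x = 0) {u : E2} (hu : ‖u‖ = 1) :
    0 < hh K u := by
  by_contra hn
  push Not at hn
  have hle : ∀ x ∈ K, inner ℝ x u ≤ 0 := fun x hx => (le_hh hK hx u).trans hn
  have hopen : IsOpen (interior K ∩ {x : E2 | inner ℝ x u < 0}) :=
    isOpen_interior.inter (isOpen_lt (by fun_prop) continuous_const)
  have hne : (interior K ∩ {x : E2 | inner ℝ x u < 0}).Nonempty := by
    obtain ⟨x, hx⟩ := hint
    have hc : Continuous fun δ : ℝ => x - δ • u := by fun_prop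
    have hx0 : (fun δ : ℝ => x - δ • u) 0 ∈ interior K := by simpa using hx
    have hmem := hc.continuousAt.preimage_mem_nhds (isOpen_interior.mem_nhds hx0)
    obtain ⟨δ, hδ, hball⟩ := Metric.mem_nhds_iff.1 hmem
    refine ⟨x - (δ / 2) • u, hball ?_, ?_⟩
    · rw [Metric.mem_ball, dist_zero_right, Real.norm_eq_abs, abs_of_pos (by positivity)]
      linarith
    · have h1 := hle x (interior_subset hx)
      have h2 : inner ℝ (x - (δ / 2) • u) u = inner ℝ x u - δ / 2 := by
        rw [inner_sub_left, inner_smul_left, real_inner_self_eq_norm_sq, hu]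
        simp
      show inner ℝ (x - (δ / 2) • u) u < 0
      rw [h2]
      linarith
  have hcont : Continuous fun x : E2 => -(inner ℝ x u : ℝ) := by fun_prop
  have hpos : 0 < ∫ x in K, -(inner ℝ x u : ℝ) := by
    rw [setIntegral_pos_iff_support_of_nonneg_ae]
    · refine lt_of_lt_of_le (hopen.measure_pos volume hne) (measure_mono fun x hx => ?_)
      refine ⟨?_, interior_subset hx.1⟩
      have : inner ℝ x u < 0 := hx.2
      simp only [Function.mem_support]
      linarith
    · exact (ae_restrict_iff' hK.measurableSet).2 (Filter.Eventually.of_forall fun x hx => by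
        simpa using hle x hx)
    · exact hcont.continuousOn.integrableOn_compact hK
  rw [integral_neg, int_inner hK, h0, inner_zero_left, neg_zero] at hpos
  exact lt_irrefl _ hpos

theorem sep (hc : Convex ℝ K) (hne : K.Nonempty) {z : E2} (hz : z ∉ K) :
    ∃ u : E2, ‖u‖ = 1 ∧ hh K u < inner ℝ z u := by
  obtain ⟨f, c, hf, hfz⟩ := geometric_hahn_banach_closed_point hc hK.isClosed hz
  set w := (InnerProductSpace.toDual ℝ E2).symm f with hw
  have hfw : ∀ y, f y = inner ℝ y w := fun y => by
    rw [real_inner_comm, hw, InnerProductSpace.toDual_symm_apply]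
  have hw0 : w ≠ 0 := by
    intro h
    obtain ⟨a, ha⟩ := hne
    have h1 := hf a ha
    rw [hfw, h, inner_zero_right] at h1
    rw [hfw, h, inner_zero_right] at hfz
    linarith
  have hwn : 0 < ‖w‖ := norm_pos_iff.2 hw0
  refine ⟨‖w‖⁻¹ • w, ?_, ?_⟩
  · rw [norm_smul, norm_inv, norm_norm, inv_mul_cancel₀ hwn.ne']
  · obtain ⟨x, hx, hxe⟩ := exists_hh hK hne (‖w‖⁻¹ • w)
    rw [← hxe, inner_smul_right, inner_smul_right, ← hfw, ← hfw]
    exact mul_lt_mul_of_pos_left ((hf x hx).trans hfz) (inv_pos.2 hwn)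

/-- **The planar inequality.** -/
theorem plane_main (hc : Convex ℝ K) (hint : (interior K).Nonempty) (h0 : ∫ x in K, x = 0)
    {u : E2} (hu : ‖u‖ = 1) (hll : hh K (-u) ≤ hh K u) {α β : ℝ} (hα : 0 < α) (hβ : 0 < β) :
    (α ^ 2 + β ^ 2 + α * β * (hh K u / hh K (-u) + hh K (-u) / hh K u)) * volume.real K ≤
      volume.real (α • K + (-β) • K) ∧
    (hh K (-u) < hh K u →
      (α ^ 2 + β ^ 2 + α * β * (hh K u / hh K (-u) + hh K (-u) / hh K u)) * volume.real K <
      volume.real (α • K + (-β) • K)) := by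
  obtain ⟨φ, hφc, hφs, hφm, hφ1⟩ := exists_coord hu
  have hne : K.Nonempty := hint.mono interior_subset
  have hu' : ‖-u‖ = 1 := by rw [norm_neg, hu]
  have hvol : ∀ S : Set E2, IsCompact S → volume.real (φ '' S) = volume.real S := by
    intro S hS
    have hmeas : MeasurableSet (φ '' S) := (hS.image hφc).measurableSet
    have := hφm.measure_preimage hmeas.nullMeasurableSet
    rw [preimage_image_eq _ φ.injective] at this
    rw [measureReal_def, measureReal_def, this]
  have hP : Proj (φ '' K) (hh K u) (hh K (-u)) := by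
    refine ⟨hK.image hφc, hc.linear_image φ.toLinearMap, ?_, ?_, ?_, ?_,
      hh_pos hK hint h0 hu, hh_pos hK hint h0 hu'⟩
    · rintro _ ⟨x, hx, rfl⟩
      rw [hφ1]
      exact le_hh hK hx u
    · rintro _ ⟨x, hx, rfl⟩
      rw [hφ1]
      have := le_hh hK hx (-u)
      rw [inner_neg_right] at this
      linarith
    · obtain ⟨x, hx, hxe⟩ := exists_hh hK hne u
      exact ⟨φ x, ⟨x, hx, rfl⟩, by rw [hφ1, hxe]⟩
    · obtain ⟨x, hx, hxe⟩ := exists_hh hK hne (-u)
      rw [inner_neg_right] at hxe
      exact ⟨φ x, ⟨x, hx, rfl⟩, by rw [hφ1]; linarith⟩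
  have hpos : 0 < volume.real (φ '' K) := by
    rw [hvol K hK]
    exact ENNReal.toReal_pos ((isOpen_interior.measure_pos volume hint).trans_le
      (measure_mono interior_subset)).ne' hK.measure_lt_top.ne
  have h0' : ∫ x in φ '' K, x.1 = 0 := by
    have hemb : MeasurableEmbedding φ :=
      (Homeomorph.mk φ.toEquiv hφc hφs).measurableEmbedding
    have h1 := hφm.setIntegral_image_emb hemb (fun x : ℝ × ℝ => x.1) K
    rw [h1]
    simp only [hφ1]
    rw [int_inner hK, h0, inner_zero_left]
  have hM : α • (φ '' K) + (-β) • (φ '' K) = φ '' (α • K + (-β) • K) := by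
    rw [image_add, image_smul_comm φ α K fun x => map_smul φ α x,
      image_smul_comm φ (-β) K fun x => map_smul φ (-β) x]
  have hMc : IsCompact (α • K + (-β) • K) := (hK.smul α).add (hK.smul (-β))
  have := hP.main hll h0' hpos hα hβ
  rw [hM, hvol _ hMc, hvol K hK] at this
  exact this

end supp

end Pool.Agent.Lib.MP_1dedaf_gt
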